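import Pool.Agent.H60.LQ.Cfg
import Pool.Agent.H25.KTH.CEN

/-!
# LQ, row SCL2: scalar families, by two copies
-/

set_option autoImplicit false

namespace Pool.LQ

open Finset Real
open Pool.Agent.H49.Ent Pool.Agent.H32.Dense Pool.KTH

namespace SCL2aux

/-- `max 1 |a - b|` as a natural number -/
def mm (a b : ℤ) : ℕ := max 1 (a - b).natAbs

theorem mm_pos (a b : ℤ) : 0 < mm a b := lt_of_lt_of_le one_pos (le_max_left _ _)

theorem abs_le_mm (a b : ℤ) : |(a : ℝ) - b| ≤ mm a b := by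
  have h : (a - b).natAbs ≤ mm a b := le_max_right _ _
  have h1 : |(a : ℝ) - b| = ((a - b).natAbs : ℝ) := by
    rw [Nat.cast_natAbs]
    push_cast
    rfl
  rw [h1]
  exact_mod_cast h

theorem mm_eq_abs {a b : ℤ} (h : a ≠ b) : (mm a b : ℝ) = |(a : ℝ) - b| := by
  have h0 : 1 ≤ (a - b).natAbs := Int.natAbs_pos.mpr (sub_ne_zero.mpr h)
  have h1 : mm a b = (a - b).natAbs := max_eq_right h0
  rw [h1, Nat.cast_natAbs]
  push_cast
  rfl

theorem mm_self (a : ℤ) : mm a a = 1 := by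
  unfold mm
  simp

/-- the dyadic class -/
def cl2 (a b : ℤ) : ℕ := Nat.log 2 (mm a b)

theorem cl2_le (a b : ℤ) : (2 : ℝ) ^ cl2 a b ≤ mm a b := by
  have := Nat.pow_log_le_self 2 (mm_pos a b).ne'
  exact_mod_cast this

theorem lt_cl2 (a b : ℤ) : (mm a b : ℝ) < 2 ^ (cl2 a b + 1) := by
  have := Nat.lt_pow_succ_log_self (b := 2) (by norm_num) (mm a b)
  exact_mod_cast this

theorem cl2_self (a : ℤ) : cl2 a a = 0 := by
  unfold cl2
  rw [mm_self]
  simp

theorem cl2_bound {J : ℕ} {a b : ℤ} (ha : |a| ≤ 2 * 2 ^ J) (hb : |b| ≤ 2 * 2 ^ J) :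
    cl2 a b ≤ J + 2 := by
  have h1 : (a - b).natAbs ≤ 2 ^ (J + 2) := by
    have h2 : |a - b| ≤ 2 ^ (J + 2) := by
      calc |a - b| ≤ |a| + |b| := abs_sub a b
        _ ≤ 2 * 2 ^ J + 2 * 2 ^ J := add_le_add ha hb
        _ = 2 ^ (J + 2) := by ring
    have h3 : ((a - b).natAbs : ℤ) ≤ ((2 ^ (J + 2) : ℕ) : ℤ) := by
      rw [Int.natCast_natAbs]
      push_cast
      exact h2
    exact_mod_cast h3
  have h2 : mm a b ≤ 2 ^ (J + 2) := max_le Nat.one_le_two_pow h1
  calc cl2 a b ≤ Nat.log 2 (2 ^ (J + 2)) := Nat.log_mono_right h2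
    _ = J + 2 := Nat.log_pow (by norm_num) _

/-- `log (J + 3) ≤ C + ε log M` -/
theorem log_small (ε : ℝ) (hε : 0 < ε) : ∃ C : ℝ, 0 ≤ C ∧ ∀ J : ℕ,
    Real.log ((J : ℝ) + 3) ≤ C + ε * lm J := by
  have hl : 0 < Real.log 2 := Real.log_pos (by norm_num)
  have hδ : 0 < ε * Real.log 2 := mul_pos hε hl
  refine ⟨3 * (ε * Real.log 2) + |Real.log (ε * Real.log 2)|, by positivity, fun J => ?_⟩
  have hJ : (0 : ℝ) < (J : ℝ) + 3 := by positivity
  have h1 := Real.log_le_sub_one_of_pos (mul_pos hδ hJ)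
  rw [Real.log_mul hδ.ne' hJ.ne'] at h1
  have h2 := neg_abs_le (Real.log (ε * Real.log 2))
  unfold lm
  nlinarith

end SCL2aux

open SCL2aux

theorem scl2 : SCL2Stmt := by
  classical
  intro ε hε
  obtain ⟨C₀, hC₀, hcen⟩ := Pool.KTH.cen
  obtain ⟨C₁, hC₁, hlog⟩ := log_small ε hε
  have l2 : 0 < Real.log 2 := Real.log_pos (by norm_num)
  have l3 : 0 < Real.log 3 := Real.log_pos (by norm_num)
  refine ⟨2 * C₀ + C₁ + 2 * Real.log 3 + 4 * Real.log 2 + 2, by positivity, ?_⟩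
  intro J Ω ζ _ q Z g x T hq h1 hg
  have hM : (0 : ℝ) < 2 ^ J := by positivity
  have hM1 : (1 : ℝ) ≤ 2 ^ J := one_le_pow₀ (by norm_num)
  set X : Ω → ℤ := fun w => ⌊x w + T w / 2 ^ J * g w⌋ with hX
  set b : Ω → (ℤ × ℤ) × ζ := fun w => ((T w, X w), Z w) with hb
  set D : Ω × Ω → ℝ := dbl q b with hD
  have hDn : ∀ w, 0 ≤ D w := fun w => dbl_nonneg hq w
  have m1 : Marg D q (fun w => w.1) := dbl_fst hq
  have m2 : Marg D q (fun w => w.2) := dbl_snd hq
  have hD1 : ∑ w, D w = 1 := m1.sum.trans h1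
  have heq : ∀ w, 0 < D w → T w.1 = T w.2 ∧ X w.1 = X w.2 ∧ Z w.1 = Z w.2 := by
    intro w h
    have h2 : b w.1 = b w.2 := dbl_eq hq h
    simp only [hb, Prod.mk.injEq] at h2
    exact ⟨h2.1.1, h2.1.2, h2.2⟩
  have hp1 : ∀ w, 0 < D w → 0 < q w.1 := fun w h => m1.pos hDn h
  have hp2 : ∀ w, 0 < D w → 0 < q w.2 := fun w h => m2.pos hDn h
  set A : Ω → ℤ × ((ℤ × ℝ) × ζ) := fun w => (T w, ((g w, x w), Z w)) with hA
  have hAb : Det q A b := by
    intro w w' _ _ h
    simp only [hA, Prod.mk.injEq] at h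
    obtain ⟨e1, ⟨e2, e3⟩, e4⟩ := h
    simp only [hb, hX]
    rw [e1, e2, e3, e4]
  have k1 : H D (fun w => (A w.1, A w.2)) = H q A + H q A - H q b :=
    H_glue_pair hq hq (fun _ => rfl) hAb hAb
  -- the two copies
  let W1 : Ω × Ω → (ℤ × ℝ) × ζ := fun w => ((g w.1, x w.1), Z w.1)
  let V2 : Ω × Ω → ℤ × ℝ := fun w => (g w.2, x w.2)
  let T1 : Ω × Ω → ℤ := fun w => T w.1
  have k2 : H D (fun w => (A w.1, A w.2)) ≤ H D (fun w => (T1 w, (V2 w, W1 w))) := by
    refine H_mono hDn ?_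
    intro w w' hw hw' h
    simp only [T1, V2, W1, Prod.mk.injEq] at h
    obtain ⟨e1, ⟨e2, e3⟩, ⟨e4, e5⟩, e6⟩ := h
    obtain ⟨f1, -, f3⟩ := heq w hw
    obtain ⟨f1', -, f3'⟩ := heq w' hw'
    simp only [hA, Prod.mk.injEq]
    refine ⟨⟨e1, ⟨e4, e5⟩, e6⟩, ⟨?_, ⟨e2, e3⟩, ?_⟩⟩
    · rw [← f1, ← f1', e1]
    · rw [← f3, ← f3', e6]
  have k3 : H D W1 = H q (fun w => ((g w, x w), Z w)) := m1.H (fun w => ((g w, x w), Z w))
  -- the second copy
  have k4 : CH D V2 W1 ≤ CH D (fun w => g w.2) W1 + CH q x (fun w => (g w, Z w)) := by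
    refine (CH_le_add hDn V2 (fun w => g w.2) W1).trans (add_le_add le_rfl ?_)
    have e1 : CH D V2 (fun w => (g w.2, W1 w)) ≤ CH D (fun w => x w.2) (fun w => (g w.2, W1 w)) := by
      refine CH_mono_left hDn ?_
      intro w w' _ _ h
      simp only [Prod.mk.injEq] at h
      simp only [V2, Prod.mk.injEq]
      exact ⟨h.2.1, h.1⟩
    have e2 : CH D (fun w => x w.2) (fun w => (g w.2, W1 w)) ≤
        CH D (fun w => x w.2) (fun w => (g w.2, Z w.2)) := by
      refine CH_mono_cond hDn ?_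
      intro w w' hw hw' h
      simp only [W1, Prod.mk.injEq] at h
      simp only [Prod.mk.injEq]
      refine ⟨h.1, ?_⟩
      rw [← (heq w hw).2.2, ← (heq w' hw').2.2]
      exact h.2.2
    have e3 : CH D (fun w => x w.2) (fun w => (g w.2, Z w.2)) =
        CH q x (fun w => (g w, Z w)) := m2.CH x (fun w => (g w, Z w))
    exact e1.trans (e2.trans e3.le)
  -- the dyadic class
  let bb : Ω × Ω → ℕ := fun w => cl2 (g w.1) (g w.2)
  have hbb : ∀ w, 0 < D w → bb w ≤ J + 2 := by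
    intro w hw
    exact cl2_bound (hg _ (hp1 w hw)) (hg _ (hp2 w hw))
  have k5 : CH D (fun w => g w.2) W1 ≤ CH D bb W1 + CH D (fun w => g w.2) (fun w => (bb w, W1 w)) :=
    CH_le_add hDn _ _ _
  have k6 : CH D bb W1 ≤ Real.log ((J : ℝ) + 3) := by
    refine (CH_le_card hDn hD1 bb W1 (fun _ => Finset.range (J + 3)) ?_).trans (le_of_eq ?_)
    · intro w hw
      rw [Finset.mem_range]
      have := hbb w hw
      omega
    · rw [Ex_const hD1, Finset.card_range]
      push_cast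
      rfl
  have k7 : CH D (fun w => g w.2) (fun w => (bb w, W1 w)) ≤
      Ex D (fun w => (bb w : ℝ)) * Real.log 2 + 2 * Real.log 3 + C₀ := by
    have h := hcen (Ω × Ω) (ℕ × ((ℤ × ℝ) × ζ)) D (fun w => (bb w, W1 w)) (fun w => g w.2)
      (fun w => (g w.1 : ℝ)) (fun w => (2 : ℝ) ^ bb w) hDn hD1
      (by
        intro w w' _ _ h
        simp only [W1, Prod.mk.injEq] at h
        simp only [h.2.1.1])
      (by
        intro w w' _ _ h
        simp only [Prod.mk.injEq] at h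
        simp only [h.1])
      (fun w _ => one_le_pow₀ (by norm_num))
    have h2 : Ex D (fun w => Real.log ((2 : ℝ) ^ bb w)) = Ex D (fun w => (bb w : ℝ)) * Real.log 2 := by
      rw [mul_comm, ← Ex_smul]
      congr 1
      funext w
      rw [Real.log_pow]
      ring
    have h3 : Ex D (fun w => Real.log (1 + |((g w.2 : ℤ) : ℝ) - (g w.1 : ℝ)| / 2 ^ bb w)) ≤
        Real.log 3 := by
      refine (Ex_mono hDn (g := fun _ => Real.log 3) ?_).trans (le_of_eq (Ex_const hD1 _))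
      intro w _
      have e1 : |((g w.2 : ℤ) : ℝ) - (g w.1 : ℝ)| ≤ 2 * 2 ^ bb w := by
        rw [abs_sub_comm]
        refine (abs_le_mm _ _).trans ((lt_cl2 (g w.1) (g w.2)).le.trans (le_of_eq ?_))
        rw [pow_succ]
        ring
      have e2 : (0 : ℝ) < 2 ^ bb w := by positivity
      have e3 : |((g w.2 : ℤ) : ℝ) - (g w.1 : ℝ)| / 2 ^ bb w ≤ 2 := by
        rw [div_le_iff₀ e2]
        exact e1
      refine Real.log_le_log (by positivity) (by linarith)
    rw [h2] at h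
    linarith
  -- the time
  have k8 : CH D T1 (fun w => (V2 w, W1 w)) ≤
      (lm J - Ex D (fun w => (bb w : ℝ)) * Real.log 2 + 2 * Real.log 2) +
        2 * (Real.log 2 + Ex q (fun w => Real.log (1 + |(T w : ℝ)| / 2 ^ J))) + C₀ := by
    have h := hcen (Ω × Ω) ((ℤ × ℝ) × ((ℤ × ℝ) × ζ)) D (fun w => (V2 w, W1 w)) T1
      (fun w => if g w.1 = g w.2 then 0 else
        -(2 ^ J * (x w.1 - x w.2) / ((g w.1 : ℝ) - g w.2)))
      (fun w => if g w.1 = g w.2 then (2 : ℝ) ^ J else max 1 (2 ^ J / |(g w.1 : ℝ) - g w.2|))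
      hDn hD1
      (by
        intro w w' _ _ h
        simp only [V2, W1, Prod.mk.injEq] at h
        simp only [h.1.1, h.1.2, h.2.1.1, h.2.1.2])
      (by
        intro w w' _ _ h
        simp only [V2, W1, Prod.mk.injEq] at h
        simp only [h.1.1, h.2.1.1])
      (by
        intro w _
        split_ifs
        · exact hM1
        · exact le_max_left _ _)
    have h2 : Ex D (fun w => Real.log (if g w.1 = g w.2 then (2 : ℝ) ^ J else
        max 1 (2 ^ J / |(g w.1 : ℝ) - g w.2|))) ≤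
        lm J - Ex D (fun w => (bb w : ℝ)) * Real.log 2 + 2 * Real.log 2 := by
      have e0 : lm J - Ex D (fun w => (bb w : ℝ)) * Real.log 2 + 2 * Real.log 2 =
          Ex D (fun w => (lm J + 2 * Real.log 2) - Real.log 2 * (bb w : ℝ)) := by
        rw [Ex_sub, Ex_const hD1, Ex_smul]
        ring
      rw [e0]
      refine Ex_mono hDn ?_
      intro w hw
      have e1 := hbb w hw
      have e2 : lm J + 2 * Real.log 2 - Real.log 2 * (bb w : ℝ) =
          Real.log (4 * 2 ^ J / 2 ^ bb w) := by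
        rw [Real.log_div (by positivity) (by positivity), Real.log_mul (by norm_num)
          (by positivity), Real.log_pow, Real.log_pow, show (4 : ℝ) = 2 ^ 2 by norm_num,
          Real.log_pow]
        unfold lm
        push_cast
        ring
      rw [e2]
      have e3 : (2 : ℝ) ^ bb w ≤ 4 * 2 ^ J := by
        calc (2 : ℝ) ^ bb w ≤ 2 ^ (J + 2) := pow_le_pow_right₀ (by norm_num) e1
          _ = 4 * 2 ^ J := by ring
      have e4 : (0 : ℝ) < 2 ^ bb w := by positivity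
      by_cases hgg : g w.1 = g w.2
      · rw [if_pos hgg]
        have e5 : bb w = 0 := by
          simp only [bb, hgg]
          exact cl2_self _
        rw [e5]
        refine Real.log_le_log hM ?_
        rw [pow_zero, div_one]
        linarith
      · rw [if_neg hgg]
        refine Real.log_le_log (by positivity) (max_le ?_ ?_)
        · rw [le_div_iff₀ e4]
          linarith
        · have e6 : (2 : ℝ) ^ bb w ≤ |(g w.1 : ℝ) - g w.2| := by
            rw [← mm_eq_abs hgg]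
            exact cl2_le _ _
          calc 2 ^ J / |(g w.1 : ℝ) - g w.2| ≤ 2 ^ J / 2 ^ bb w :=
                div_le_div_of_nonneg_left hM.le e4 e6
            _ ≤ 4 * 2 ^ J / 2 ^ bb w := by
                refine div_le_div_of_nonneg_right ?_ e4.le
                linarith
    have h3 : Ex D (fun w => Real.log (1 + |((T1 w : ℤ) : ℝ) - (if g w.1 = g w.2 then 0 else
        -(2 ^ J * (x w.1 - x w.2) / ((g w.1 : ℝ) - g w.2)))| /
        (if g w.1 = g w.2 then (2 : ℝ) ^ J else max 1 (2 ^ J / |(g w.1 : ℝ) - g w.2|)))) ≤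
        Real.log 2 + Ex q (fun w => Real.log (1 + |(T w : ℝ)| / 2 ^ J)) := by
      have e0 : Real.log 2 + Ex q (fun w => Real.log (1 + |(T w : ℝ)| / 2 ^ J)) =
          Ex D (fun w => Real.log 2 + Real.log (1 + |(T w.1 : ℝ)| / 2 ^ J)) := by
        rw [Ex_add, Ex_const hD1, m1.ex (fun w => Real.log (1 + |(T w : ℝ)| / 2 ^ J))]
      rw [e0]
      refine Ex_mono hDn ?_
      intro w hw
      have e1 : 0 ≤ Real.log (1 + |(T w.1 : ℝ)| / 2 ^ J) := Real.log_nonneg (by
        have : 0 ≤ |(T w.1 : ℝ)| / 2 ^ J := by positivity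
        linarith)
      by_cases hgg : g w.1 = g w.2
      · rw [if_pos hgg, if_pos hgg, sub_zero]
        simp only [T1]
        linarith
      · rw [if_neg hgg, if_neg hgg]
        obtain ⟨f1, f2, -⟩ := heq w hw
        have e2 : |(g w.1 : ℝ) - g w.2| ≠ 0 := by
          rw [Ne, abs_eq_zero, sub_eq_zero]
          exact_mod_cast hgg
        have e2' : (g w.1 : ℝ) - g w.2 ≠ 0 := fun h => e2 (by rw [h, abs_zero])
        have e3 : (0 : ℝ) < |(g w.1 : ℝ) - g w.2| := lt_of_le_of_ne (abs_nonneg _) e2.symm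
        have e4 : |(x w.1 + T w.1 / 2 ^ J * g w.1) - (x w.2 + T w.2 / 2 ^ J * g w.2)| < 1 :=
          Int.abs_sub_lt_one_of_floor_eq_floor f2
        rw [← f1] at e4
        have e5 : |((T1 w : ℤ) : ℝ) - -(2 ^ J * (x w.1 - x w.2) / ((g w.1 : ℝ) - g w.2))| ≤
            2 ^ J / |(g w.1 : ℝ) - g w.2| := by
          have e6 : ((T1 w : ℤ) : ℝ) - -(2 ^ J * (x w.1 - x w.2) / ((g w.1 : ℝ) - g w.2)) =
              2 ^ J / ((g w.1 : ℝ) - g w.2) *
                ((x w.1 + T w.1 / 2 ^ J * g w.1) - (x w.2 + T w.1 / 2 ^ J * g w.2)) := by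
            simp only [T1]
            field_simp
            ring
          rw [e6, abs_mul, abs_div, abs_of_pos hM]
          calc 2 ^ J / |(g w.1 : ℝ) - g w.2| *
                |(x w.1 + T w.1 / 2 ^ J * g w.1) - (x w.2 + T w.1 / 2 ^ J * g w.2)| ≤
                2 ^ J / |(g w.1 : ℝ) - g w.2| * 1 :=
                mul_le_mul_of_nonneg_left e4.le (by positivity)
            _ = _ := mul_one _
        have e7 : (0 : ℝ) < max 1 (2 ^ J / |(g w.1 : ℝ) - g w.2|) :=
          lt_of_lt_of_le one_pos (le_max_left _ _)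
        have e8 : |((T1 w : ℤ) : ℝ) - -(2 ^ J * (x w.1 - x w.2) / ((g w.1 : ℝ) - g w.2))| /
            max 1 (2 ^ J / |(g w.1 : ℝ) - g w.2|) ≤ 1 := by
          rw [div_le_one e7]
          exact e5.trans (le_max_right _ _)
        have e9 : Real.log (1 + |((T1 w : ℤ) : ℝ) -
            -(2 ^ J * (x w.1 - x w.2) / ((g w.1 : ℝ) - g w.2))| /
            max 1 (2 ^ J / |(g w.1 : ℝ) - g w.2|)) ≤ Real.log 2 :=
          Real.log_le_log (by positivity) (by linarith)
        linarith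
    linarith
  -- the sum
  have s1 : CH D T1 (fun w => (V2 w, W1 w)) =
      H D (fun w => (T1 w, (V2 w, W1 w))) - H D (fun w => (V2 w, W1 w)) := rfl
  have s2 : CH D V2 W1 = H D (fun w => (V2 w, W1 w)) - H D W1 := rfl
  have s3 : CH q T (fun w => ((g w, x w), Z w)) = H q A - H q (fun w => ((g w, x w), Z w)) := rfl
  have s4 : CH q (fun w => (T w, X w)) Z = H q b - H q Z := rfl
  have s5 : CH q g Z = H q (fun w => (g w, Z w)) - H q Z := rfl
  have s6 : CH q x (fun w => (g w, Z w)) =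
      H q (fun w => (x w, (g w, Z w))) - H q (fun w => (g w, Z w)) := rfl
  have s7 : H q (fun w => (x w, (g w, Z w))) = H q (fun w => ((g w, x w), Z w)) := by
    refine H_congr hq ?_ ?_ <;>
    · intro w w' _ _ h
      simp only [Prod.mk.injEq] at h ⊢
      tauto
  have s8 := hlog J
  have s9 : 0 ≤ Ex q (fun w => Real.log (1 + |(T w : ℝ)| / 2 ^ J)) := Ex_nonneg hq (fun w _ =>
    Real.log_nonneg (by
      have : 0 ≤ |(T w : ℝ)| / 2 ^ J := by positivity
      linarith))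
  set E : ℝ := Ex q (fun w => Real.log (1 + |(T w : ℝ)| / 2 ^ J)) with hE
  have s10 : (2 * C₀ + C₁ + 2 * Real.log 3 + 4 * Real.log 2) + 2 * E ≤
      (2 * C₀ + C₁ + 2 * Real.log 3 + 4 * Real.log 2 + 2) * (1 + E) := by
    nlinarith [mul_nonneg hC₀ s9, mul_nonneg hC₁ s9, mul_nonneg l2.le s9, mul_nonneg l3.le s9]
  linarith

end Pool.LQ
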