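import Pool.Agent.H99.LQ.LPA1

/-!
# Row LPA of LQ0, part 2: the sum over the depths
-/

set_option autoImplicit false

namespace Pool.LQ

open Finset Real
open Pool.Agent.H49.Ent Pool.Agent.H32.Dense Pool.KTH
open Pool.Agent.H24.KTH (dsv lvv lev cap Yf kp CAPStmt ONCStmt INFStmt)

namespace Lpa99

section Sig

variable {ι : Type*} [Fintype ι] {A : ι → Type*} [∀ i, Fintype (A i)] {S T : Type*}

/-- The disjoint union. -/
def sq (g : ι → ℝ) (q : ∀ i, A i → ℝ) : (Σ i, A i) → ℝ := fun x => g x.1 * q x.1 x.2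

theorem Ex_sig (g : ι → ℝ) (q : ∀ i, A i → ℝ) (f : (Σ i, A i) → ℝ) :
    Ex (sq g q) f = ∑ i, g i * Ex (q i) (fun x => f ⟨i, x⟩) := by
  unfold Ex sq
  rw [Fintype.sum_sigma]
  refine Finset.sum_congr rfl fun i _ => ?_
  rw [Finset.mul_sum]
  exact Finset.sum_congr rfl fun x _ => by ring

theorem law_sig (g : ι → ℝ) (q : ∀ i, A i → ℝ) (W : (Σ i, A i) → S) (s : S) (i : ι) :
    law (sq g q) (fun x => (W x, x.1)) (s, i) = g i * law (q i) (fun x => W ⟨i, x⟩) s := by
  classical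
  unfold law
  rw [Fintype.sum_sigma, Finset.sum_eq_single i]
  · rw [Finset.mul_sum]
    refine Finset.sum_congr rfl fun x _ => ?_
    by_cases h : W ⟨i, x⟩ = s
    · simp [h, sq]
    · simp [h]
  · intro j _ hj
    refine Finset.sum_eq_zero fun x _ => ?_
    rw [if_neg]
    intro e
    exact hj (Prod.ext_iff.mp e).2
  · intro h
    exact absurd (Finset.mem_univ _) h

theorem H_sig (g : ι → ℝ) (q : ∀ i, A i → ℝ) (hg : ∀ i, 0 ≤ g i) (hq : ∀ i x, 0 ≤ q i x)
    (W : (Σ i, A i) → S) :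
    H (sq g q) (fun x => (W x, x.1)) =
      ∑ i, (g i * H (q i) (fun x => W ⟨i, x⟩) - g i * Real.log (g i) * ∑ x, q i x) := by
  unfold H
  rw [Fintype.sum_sigma, ← Finset.sum_neg_distrib]
  refine Finset.sum_congr rfl fun i _ => ?_
  rw [mul_neg, Finset.mul_sum, Finset.mul_sum, ← neg_add', ← Finset.sum_add_distrib]
  congr 1
  refine Finset.sum_congr rfl fun x _ => ?_
  rw [law_sig g q W (W ⟨i, x⟩) i]
  simp only [sq]
  rcases (hg i).eq_or_lt with h0 | h0
  · rw [← h0]
    ring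
  · rcases (hq i x).eq_or_lt with h1 | h1
    · rw [← h1]
      ring
    · rw [Real.log_mul h0.ne' (law_pos (hq i) (fun x => W ⟨i, x⟩) h1).ne']
      ring

theorem CH_sig (g : ι → ℝ) (q : ∀ i, A i → ℝ) (hg : ∀ i, 0 ≤ g i) (hq : ∀ i x, 0 ≤ q i x)
    (X : (Σ i, A i) → S) (Y : (Σ i, A i) → T) :
    CH (sq g q) X (fun x => (Y x, x.1)) =
      ∑ i, g i * CH (q i) (fun x => X ⟨i, x⟩) (fun x => Y ⟨i, x⟩) := by
  have hs : ∀ x, 0 ≤ sq g q x := fun x => mul_nonneg (hg _) (hq _ _)
  have h1 : H (sq g q) (fun x => (X x, (Y x, x.1))) =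
      H (sq g q) (fun x => ((X x, Y x), x.1)) := by
    refine H_congr hs ?_ ?_ <;>
    · intro x y _ _ e
      simp only [Prod.mk.injEq] at e ⊢
      tauto
  have h2 := H_sig g q hg hq (fun x => (X x, Y x))
  have h3 := H_sig g q hg hq Y
  unfold CH
  rw [h1, h2, h3, ← Finset.sum_sub_distrib]
  exact Finset.sum_congr rfl fun i _ => by ring

theorem marg_sig {Ω : Type*} [Fintype Ω] (g : ι → ℝ) (q : ∀ i, A i → ℝ) (p : Ω → ℝ)
    (pr : ∀ i, A i → Ω) (c : ι → Ω → ℝ) (hM : ∀ i, g i ≠ 0 → Marg (q i) (c i) (pr i))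
    (hs : ∀ ω, ∑ i, g i * c i ω = p ω) : Marg (sq g q) p (fun x => pr x.1 x.2) := by
  classical
  intro ω
  rw [Fintype.sum_sigma, ← hs ω]
  refine Finset.sum_congr rfl fun i _ => ?_
  by_cases h0 : g i = 0
  · rw [h0, zero_mul]
    refine Finset.sum_eq_zero fun x _ => ?_
    simp [sq, h0]
  · have h1 := hM i h0 ω
    rw [← h1, Finset.mul_sum]
    refine Finset.sum_congr rfl fun x _ => ?_
    simp only [sq]
    split_ifs <;> simp

end Sig

theorem lev_ineq {m j N N' w : ℕ} (hj : j ≤ m) (hN : 0 < N) (hN' : 0 < N') :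
    (1 - ((lev (m - j) N w * N' / m : ℕ) : ℝ) / N') * m ≤
      (1 - (w : ℝ) / N) * ((m - j : ℕ) : ℝ) + j + 1 + m / N' := by
  have hNR : (0 : ℝ) < N := by exact_mod_cast hN
  have hN'R : (0 : ℝ) < N' := by exact_mod_cast hN'
  rcases Nat.eq_zero_or_pos m with rfl | hm
  · have : j = 0 := by omega
    subst this
    simp
  · have hmR : (0 : ℝ) < m := by exact_mod_cast hm
    have h1 : w * (m - j) < (lev (m - j) N w + 1) * N := by
      unfold lev
      have := Nat.lt_mul_div_succ (w * (m - j)) hN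
      linarith
    have h2 : lev (m - j) N w * N' < (lev (m - j) N w * N' / m + 1) * m := by
      have := Nat.lt_mul_div_succ (lev (m - j) N w * N') hm
      linarith
    set L := lev (m - j) N w with hL
    set W := L * N' / m with hW
    have h3 : (w : ℝ) * ((m - j : ℕ) : ℝ) < (L + 1) * N := by exact_mod_cast h1
    have h4 : (L : ℝ) * N' < (W + 1) * m := by exact_mod_cast h2
    have h5 : (w : ℝ) / N * ((m - j : ℕ) : ℝ) < L + 1 := by
      rw [div_mul_eq_mul_div, div_lt_iff₀ hNR]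
      exact h3
    have h6 : (L : ℝ) < (W : ℝ) / N' * m + m / N' := by
      rw [div_mul_eq_mul_div, ← add_div, lt_div_iff₀ hN'R]
      linarith
    have h7 : ((m - j : ℕ) : ℝ) = m - j := Nat.cast_sub hj
    rw [h7] at h5 ⊢
    linarith

/-- The localised inequality, before the choice of the parameters. -/
theorem local_sum (hSEC : SEC3Stmt) {d : ℕ} {a lam k : ℝ} {N : ℕ} {B₀ B₁ ε : ℝ}
    (h : Pg d a lam k N B₀ B₁ ε) (hN : 0 < N) (ha1 : 1 ≤ a) (hlam : 0 ≤ lam) (hk : 0 ≤ k)
    (hB : 0 ≤ B₁) (hε : 0 ≤ ε) {e e₁ : ℝ} (he : 0 < e) (he₁ : 0 < e₁) {N' : ℕ} (hN' : 0 < N') :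
    ∃ C : ℝ, 0 ≤ C ∧ ∀ (m : ℕ) (Ω : Type) [Fintype Ω] (ζ : Type) (p : Ω → ℝ) (Z : Ω → ζ)
      (v : Ω → Fin d → ℤ) (u : Ω → Fin d → ℝ) (τ : Ω → ℤ), IsFam (2 ^ m) p Z v u τ →
      ∃ w Kf' : ℝ, 0 ≤ w ∧ 0 ≤ Kf' ∧
      w * (Real.log 2 - e - e₁) + Kf' ≤ Kf (2 ^ m) p (bv Z v) τ + C ∧
      ∃ (Ω' : Type) (_ : Fintype Ω') (q : Ω' → ℝ) (pr : Ω' → Ω) (W : Ω' → ℕ),
      (∀ x, 0 ≤ q x) ∧ Marg q p pr ∧ (∀ x, W x ≤ N') ∧
      CH p v Z ≤ a * (Sb (2 ^ m) p Z v u τ - m * Real.log 2) -
        k * ((1 - Ex q (fun x => (W x : ℝ)) / N') * (m * Real.log 2)) -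
        (a - 1) * CH q (fun x => cap m (lev m N' (W x)) (v (pr x))) (fun x => (W x, Z (pr x))) +
        lam * Kf' + w * ((a + d + k) * Real.log 2 + a * e₁ + B₁ * (2 / e) * e₁) +
        ε * (m * Real.log 2) + k * (m / N' * Real.log 2) + C := by
  have ha : 0 ≤ a := by linarith
  obtain ⟨C₁, hC₁⟩ := stop_energy he
  set c₁ : ℝ := -Real.log (1 - Real.exp (-e₁)) with hc₁
  have hlogN : 0 ≤ Real.log (N + 1) := Real.log_nonneg (by
    have : (0 : ℝ) ≤ N := Nat.cast_nonneg N
    linarith)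
  have hlog2' : 0 < Real.log 2 := Real.log_pos (by norm_num)
  have ha0' : 0 ≤ a - 1 := by linarith
  refine ⟨|C₁| * (B₁ * (2 / e)) + |c₁| * (a + 1 + B₁ * (2 / e)) + a * (2 * d) + |B₀| +
    k * Real.log 2 + (a - 1) * (2 * Real.log (N + 1)), by positivity, ?_⟩
  intro m Ω _ ζ p Z v u τ hf
  obtain ⟨M, hM⟩ : ∃ M : ℕ, M = 2 ^ m := ⟨_, rfl⟩
  rw [← hM] at hf ⊢
  classical
  have hp := hf.hp
  have h1 := hf.h1
  have hm1 : M ≤ 2 ^ m := hM.le
  have hτ' : ∀ ω, 0 < p ω → 0 ≤ τ ω ∧ τ ω < 2 ^ m := by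
    intro ω hω
    obtain ⟨i1, i2⟩ := hf.hτ ω hω
    refine ⟨i1, lt_of_lt_of_le i2 ?_⟩
    exact_mod_cast hm1
  obtain ⟨J, hJ⟩ := exists_stop m e p (bv Z v) τ
  set w : ℝ := Ex p (fun ω => (J ω : ℝ)) with hw
  have hw0 : 0 ≤ w := Ex_nonneg hp fun ω _ => Nat.cast_nonneg _
  set Q : Ω → ℤ := fun ω => τ ω / 2 ^ (m - J ω) with hQ
  set E₁ : ℝ := CH p (fun ω => (J ω, Q ω)) (bv Z v) with hE₁
  have hE0 : 0 ≤ E₁ := CH_nonneg hp _ _
  have s1 := stop_entropy he₁ hp h1 hτ' hJ
  have s2 := stop_mass he hp h1 hτ' hJ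
  have s3 := code_entropy Z he₁ hp h1 hτ' hJ.le
  -- the decomposition of the entropy of the time
  set b' : Ω → (((Fin d → ℤ) × ζ) × ℤ) := fun ω => (bv Z v ω, Q ω) with hb'
  have t1 : CH p τ (bv Z v) = E₁ + CH p τ (fun ω => (b' ω, J ω)) := by
    have c1 := CH_bayes hp τ (fun ω => (J ω, Q ω)) (bv Z v)
    have c2 : CH p (fun ω => (J ω, Q ω)) (fun ω => (τ ω, bv Z v ω)) = 0 := by
      refine CH_eq_zero hp ?_
      intro ω ω' _ _ e
      simp only [Prod.mk.injEq] at e
      have := hJ.det ω ω' e.2 e.1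
      simp only [hQ, this, e.1]
    have c3 : CH p τ (fun ω => ((J ω, Q ω), bv Z v ω)) = CH p τ (fun ω => (b' ω, J ω)) := by
      refine CH_congr hp ?_ ?_ ?_ ?_ <;>
      · intro w w' _ _ e
        simp only [hb', Prod.mk.injEq] at e ⊢
        tauto
    linarith
  set KL : ℝ := Ex p (fun ω => Real.log (2 ^ (m - J ω))) - CH p τ (fun ω => (b' ω, J ω)) with hKL
  -- logarithms
  have hlog2 : 0 < Real.log 2 := Real.log_pos (by norm_num)
  have t2 : Ex p (fun ω => Real.log (2 ^ (m - J ω))) = m * Real.log 2 - w * Real.log 2 := by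
    have : ∀ ω, Real.log (2 ^ (m - J ω)) = m * Real.log 2 + (-Real.log 2) * (J ω : ℝ) := by
      intro ω
      rw [Real.log_pow, Nat.cast_sub (hJ.le ω)]
      ring
    simp_rw [this]
    rw [Ex_add, Ex_const h1, Ex_smul]
    ring
  have hM0 : (0 : ℝ) < M := by exact_mod_cast hf.hM
  have t3 : m * Real.log 2 = Real.log M := by
    rw [← Real.log_pow, hM]
    push_cast
    rfl
  have hlog3 : Real.log 2 ≤ Real.log 3 := Real.log_le_log (by norm_num) (by norm_num)
  -- per level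
  set g : ℕ → ℝ := fun j => law p J j with hg
  have hg0 : ∀ j, 0 ≤ g j := fun j => law_nonneg hp J j
  set b'' : ℕ → Ω → (((Fin d → ℤ) × ζ) × ℤ) := fun j ω => (bv Z v ω, τ ω / 2 ^ (m - j)) with hb''
  have hcb : ∀ j, CH (cond p J j) τ b' = CH (cond p J j) τ (b'' j) := by
    intro j
    refine CH_congr (cond_nonneg hp J j) ?_ ?_ ?_ ?_
    · intro w w' a b e; exact (Prod.ext_iff.mp e).1
    · intro w w' a b e; exact (Prod.ext_iff.mp e).1
    · intro w w' a b e
      have ja := ((cond_pos_iff hp J j w).mp a).2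
      have jb := ((cond_pos_iff hp J j w').mp b).2
      simpa only [hb', hb'', hQ, ja, jb] using e
    · intro w w' a b e
      have ja := ((cond_pos_iff hp J j w).mp a).2
      have jb := ((cond_pos_iff hp J j w').mp b).2
      simpa only [hb', hb'', hQ, ja, jb] using e
  have hcv : ∀ j, CH (cond p J j) v (fun ω => (Z ω, Q ω)) =
      CH (cond p J j) v (fun ω => (Z ω, τ ω / 2 ^ (m - j))) := by
    intro j
    refine CH_congr (cond_nonneg hp J j) ?_ ?_ ?_ ?_
    · intro w w' a b e; exact (Prod.ext_iff.mp e).1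
    · intro w w' a b e; exact (Prod.ext_iff.mp e).1
    · intro w w' a b e
      have ja := ((cond_pos_iff hp J j w).mp a).2
      have jb := ((cond_pos_iff hp J j w').mp b).2
      simpa only [hQ, ja, jb] using e
    · intro w w' a b e
      have ja := ((cond_pos_iff hp J j w).mp a).2
      have jb := ((cond_pos_iff hp J j w').mp b).2
      simpa only [hQ, ja, jb] using e
  -- the entropy of the time inside the intervals
  have hKLj : ∀ j, g j ≠ 0 → CH (cond p J j) τ (b'' j) ≤ Real.log (2 ^ (m - j)) := by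
    intro j hj
    have hc := CH_le_card (cond_nonneg hp J j) (sum_cond p J hj) τ (b'' j)
      (fun z => Finset.Ico (z.2 * 2 ^ (m - j)) (z.2 * 2 ^ (m - j) + 2 ^ (m - j))) (by
        intro ω _
        simp only [hb'']
        rw [Finset.mem_Ico]
        have h2 : (0 : ℤ) < 2 ^ (m - j) := by positivity
        have i1 := Int.emod_add_mul_ediv (τ ω) (2 ^ (m - j))
        have i2 := Int.emod_nonneg (τ ω) h2.ne'
        have i3 := Int.emod_lt_of_pos (τ ω) h2
        constructor <;> linarith)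
    refine hc.trans (le_of_eq ?_)
    rw [show (fun ω => Real.log ((Finset.Ico ((b'' j ω).2 * 2 ^ (m - j))
      ((b'' j ω).2 * 2 ^ (m - j) + 2 ^ (m - j))).card : ℝ)) =
      fun _ => Real.log (2 ^ (m - j)) from by
        funext ω
        rw [Int.card_Ico, add_sub_cancel_left]
        norm_cast]
    exact Ex_const (sum_cond p J hj) _
  have t4 : KL = ∑ j ∈ univ.image J, g j * (Real.log (2 ^ (m - j)) -
      CH (cond p J j) τ (b'' j)) := by
    rw [hKL, CH_split hp τ b' J, Ex_split hp _ J, ← Finset.sum_sub_distrib]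
    refine Finset.sum_congr rfl fun j _ => ?_
    rw [mul_sub, hcb j]
    congr 1
    by_cases hj : g j = 0
    · simp only [hg] at hj
      rw [hj]
      simp [hg, hj]
    · congr 1
      have : Ex (cond p J j) (fun ω => Real.log (2 ^ (m - J ω))) =
          Ex (cond p J j) (fun _ => Real.log (2 ^ (m - j))) := by
        refine le_antisymm ?_ ?_
        · refine Ex_mono (cond_nonneg hp J j) fun ω hω => ?_
          rw [((cond_pos_iff hp J j ω).mp hω).2]
        · refine Ex_mono (cond_nonneg hp J j) fun ω hω => ?_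
          rw [((cond_pos_iff hp J j ω).mp hω).2]
      rw [this, Ex_const (sum_cond p J hj)]
  have hKL0 : 0 ≤ KL := by
    rw [t4]
    refine Finset.sum_nonneg fun j _ => ?_
    by_cases hj : g j = 0
    · rw [hj, zero_mul]
    · exact mul_nonneg (hg0 j) (by linarith [hKLj j hj])
  -- the energies
  set Gj : ℕ → ℝ := fun j => Gf (2 ^ (m - j)) (cond p J j) (b'' j) (fun ω => τ ω % 2 ^ (m - j))
    with hGj
  have t5 : ∑ j ∈ univ.image J, g j * Gj j ≤ (2 / e) * (|C₁| + |c₁| + e₁ * w) := by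
    have r1 : ∀ j ∈ univ.image J, g j * ((e / 2) * Gj j) ≤ g j * (|C₁| +
        Ex (cond p J j) (fun ω => -Real.log (mass m p (bv Z v) τ (bv Z v ω) m (τ ω)) +
          Real.log (mass m p (bv Z v) τ (bv Z v ω) (J ω) (τ ω))) - CH (cond p J j) τ b') := by
      intro j hj
      by_cases hj0 : g j = 0
      · rw [hj0, zero_mul, zero_mul]
      · refine mul_le_mul_of_nonneg_left ?_ (hg0 j)
        have hjm : j ≤ m := by
          obtain ⟨ω, _, rfl⟩ := Finset.mem_image.mp hj
          exact hJ.le ω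
        have := hC₁ Ω _ m p (bv Z v) τ J hp h1 hτ' hJ j hjm hj0
        rw [hcb j]
        have e1 : Ex (cond p J j) (fun ω => -Real.log (mass m p (bv Z v) τ (bv Z v ω) m (τ ω)) +
            Real.log (mass m p (bv Z v) τ (bv Z v ω) j (τ ω))) =
            Ex (cond p J j) (fun ω => -Real.log (mass m p (bv Z v) τ (bv Z v ω) m (τ ω)) +
            Real.log (mass m p (bv Z v) τ (bv Z v ω) (J ω) (τ ω))) := by
          refine le_antisymm ?_ ?_
          · refine Ex_mono (cond_nonneg hp J j) fun ω hω => ?_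
            rw [((cond_pos_iff hp J j ω).mp hω).2]
          · refine Ex_mono (cond_nonneg hp J j) fun ω hω => ?_
            rw [((cond_pos_iff hp J j ω).mp hω).2]
        rw [← e1]
        have := le_abs_self C₁
        linarith
    have r2 := Finset.sum_le_sum r1
    have r3 : ∑ j ∈ univ.image J, g j * ((e / 2) * Gj j) =
        (e / 2) * ∑ j ∈ univ.image J, g j * Gj j := by
      rw [Finset.mul_sum]
      exact Finset.sum_congr rfl fun j _ => by ring
    have r4 : ∑ j ∈ univ.image J, g j * (|C₁| +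
        Ex (cond p J j) (fun ω => -Real.log (mass m p (bv Z v) τ (bv Z v ω) m (τ ω)) +
          Real.log (mass m p (bv Z v) τ (bv Z v ω) (J ω) (τ ω))) - CH (cond p J j) τ b') =
        |C₁| + Ex p (fun ω => -Real.log (mass m p (bv Z v) τ (bv Z v ω) m (τ ω)) +
          Real.log (mass m p (bv Z v) τ (bv Z v ω) (J ω) (τ ω))) -
          CH p τ (fun ω => (b' ω, J ω)) := by
      rw [CH_split hp τ b' J, Ex_split hp _ J]
      simp_rw [mul_sub, mul_add]
      rw [Finset.sum_sub_distrib, Finset.sum_add_distrib, ← Finset.sum_mul,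
        sum_law_one h1 J, one_mul]
    have r5 : Ex p (fun ω => -Real.log (mass m p (bv Z v) τ (bv Z v ω) m (τ ω))) =
        CH p τ (bv Z v) := by
      rw [CH_eq_mean hp]
      unfold mass
      simp only [Nat.sub_self, pow_zero, Int.ediv_one]
    have r6 : Ex p (fun ω => -Real.log (mass m p (bv Z v) τ (bv Z v ω) m (τ ω)) +
          Real.log (mass m p (bv Z v) τ (bv Z v ω) (J ω) (τ ω))) =
        CH p τ (bv Z v) -
          Ex p (fun ω => -Real.log (mass m p (bv Z v) τ (bv Z v ω) (J ω) (τ ω))) := by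
      rw [← r5, ← Ex_sub]
      congr 1
      funext ω
      ring
    rw [r3, r4, r6] at r2
    have r7 := le_abs_self c₁
    have r8 : (e / 2) * ∑ j ∈ univ.image J, g j * Gj j ≤ |C₁| + |c₁| + e₁ * w := by linarith
    have r9 : ∑ j ∈ univ.image J, g j * Gj j =
        (2 / e) * ((e / 2) * ∑ j ∈ univ.image J, g j * Gj j) := by
      field_simp
    rw [r9]
    exact mul_le_mul_of_nonneg_left r8 (by positivity)
  -- the slices
  have t6 : ∑ j ∈ univ.image J, g j * Sf M (cond p J j) Z v u τ ≤ Sf M p Z v u τ := by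
    unfold Sf
    rw [← CH_split hp (fun ω => rd (pos M (u ω) (v ω) (τ ω))) (fun ω => (Z ω, τ ω)) J]
    refine CH_mono_cond hp ?_
    intro w w' _ _ e
    simp only [Prod.mk.injEq] at e ⊢
    tauto
  -- the entropy of the time in the intervals
  have t11 : CH p τ (fun ω => ((Z ω, Q ω), J ω)) ≤
      CH p τ Z - CH p (fun ω => (J ω, Q ω)) Z + (e₁ * w + c₁) := by
    have c1 := CH_bayes hp τ (fun ω => (J ω, Q ω)) Z
    have c3 : CH p τ (fun ω => ((J ω, Q ω), Z ω)) = CH p τ (fun ω => ((Z ω, Q ω), J ω)) := by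
      refine CH_congr hp ?_ ?_ ?_ ?_ <;>
      · intro w w' _ _ e
        simp only [Prod.mk.injEq] at e ⊢
        tauto
    have c4 : CH p (fun ω => (J ω, Q ω)) (fun ω => (τ ω, Z ω)) ≤ e₁ * w + c₁ := by
      have c5 := pair_cross (p := p) (J := J) (m := m) (fun ω => (τ ω, Z ω)) Q
        (fun z k i => if i = z.1 / 2 ^ (m - k) then 1 else 0) he₁ hp h1 hJ.le
        (fun z k i => by split_ifs <;> norm_num)
        (fun ω _ => by
          have : (if Q ω = τ ω / 2 ^ (m - J ω) then (1 : ℝ) else 0) = 1 := if_pos rfl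
          simp only [this]
          exact one_pos)
        (fun ω _ k _ F => by
          rw [Finset.sum_ite_eq']
          split_ifs <;> norm_num)
      have c6 : Ex p (fun ω => -Real.log (if Q ω = τ ω / 2 ^ (m - J ω) then (1 : ℝ) else 0)) = 0 := by
        have : (fun ω => -Real.log (if Q ω = τ ω / 2 ^ (m - J ω) then (1 : ℝ) else 0)) =
            fun _ => (0 : ℝ) := by
          funext ω
          rw [if_pos rfl, Real.log_one, neg_zero]
        rw [this]
        exact Ex_const h1 0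
      rw [hc₁]
      linarith
    linarith
  have t12 : CH p τ (fun ω => ((Z ω, Q ω), J ω)) = ∑ j ∈ univ.image J,
      g j * CH (cond p J j) τ (fun ω => (Z ω, τ ω / 2 ^ (m - j))) := by
    rw [CH_split hp τ (fun ω => (Z ω, Q ω)) J]
    refine Finset.sum_congr rfl fun j _ => ?_
    congr 1
    refine CH_congr (cond_nonneg hp J j) ?_ ?_ ?_ ?_
    · intro w w' a b e; exact (Prod.ext_iff.mp e).1
    · intro w w' a b e; exact (Prod.ext_iff.mp e).1
    · intro w w' a b e
      have ja := ((cond_pos_iff hp J j w).mp a).2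
      have jb := ((cond_pos_iff hp J j w').mp b).2
      simpa only [hQ, ja, jb] using e
    · intro w w' a b e
      have ja := ((cond_pos_iff hp J j w).mp a).2
      have jb := ((cond_pos_iff hp J j w').mp b).2
      simpa only [hQ, ja, jb] using e
  have t13 : ∑ j ∈ univ.image J, g j * (((m - j : ℕ) : ℝ) * Real.log 2) =
      m * Real.log 2 - w * Real.log 2 := by
    rw [← t2, Ex_split hp _ J]
    refine Finset.sum_congr rfl fun j _ => ?_
    by_cases hj0 : g j = 0
    · simp only [hg] at hj0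
      simp [hg, hj0]
    · have : Ex (cond p J j) (fun ω => Real.log (2 ^ (m - J ω))) =
          Ex (cond p J j) (fun _ => ((m - j : ℕ) : ℝ) * Real.log 2) := by
        refine le_antisymm ?_ ?_
        · refine Ex_mono (cond_nonneg hp J j) fun ω hω => ?_
          rw [((cond_pos_iff hp J j ω).mp hω).2, Real.log_pow]
        · refine Ex_mono (cond_nonneg hp J j) fun ω hω => ?_
          rw [((cond_pos_iff hp J j ω).mp hω).2, Real.log_pow]
      rw [this, Ex_const (sum_cond p J hj0)]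
  have hjm : ∀ j ∈ univ.image J, j ≤ m := by
    intro j hj
    obtain ⟨ω, _, rfl⟩ := Finset.mem_image.mp hj
    exact hJ.le ω
  have t7 : ∑ j ∈ univ.image J, g j * (j : ℝ) = w := by
    rw [hw, Ex_split hp _ J]
    refine Finset.sum_congr rfl fun j _ => ?_
    by_cases hj0 : g j = 0
    · simp only [hg] at hj0
      simp [hg, hj0]
    · have : Ex (cond p J j) (fun ω => (J ω : ℝ)) = Ex (cond p J j) (fun _ => (j : ℝ)) := by
        refine le_antisymm ?_ ?_
        · refine Ex_mono (cond_nonneg hp J j) fun ω hω => ?_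
          rw [((cond_pos_iff hp J j ω).mp hω).2]
        · refine Ex_mono (cond_nonneg hp J j) fun ω hω => ?_
          rw [((cond_pos_iff hp J j ω).mp hω).2]
      rw [this, Ex_const (sum_cond p J hj0)]
  -- the local families
  have hloc : ∀ j : ℕ, ∃ (Ω' : Type) (_ : Fintype Ω') (q : Ω' → ℝ) (pr : Ω' → Ω) (W : Ω' → ℕ),
      (∀ x, 0 ≤ q x) ∧ (g j ≠ 0 → Marg q (cond p J j) pr) ∧ (∀ x, W x ≤ N) ∧
      (g j ≠ 0 → CH (cond p J j) v (fun ω => (Z ω, τ ω / 2 ^ (m - j))) ≤
      a * (CH (cond p J j) τ (fun ω => (Z ω, τ ω / 2 ^ (m - j))) +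
        (Sf M (cond p J j) Z v u τ + 2 * d) - ((m - j : ℕ) : ℝ) * Real.log 2) -
      k * ((1 - Ex q (fun x => (W x : ℝ)) / N) * (((m - j : ℕ) : ℝ) * Real.log 2)) -
      (a - 1) * CH q (fun x => cap m (lev (m - j) N (W x)) (v (pr x)))
        (fun x => (W x, (Z (pr x), τ (pr x) / 2 ^ (m - j)))) + (a - 1) * Real.log (N + 1) +
      lam * (((m - j : ℕ) : ℝ) * Real.log 2 - CH (cond p J j) τ (b'' j)) + B₀ +
      B₁ * Gj j + ε * (((m - j : ℕ) : ℝ) * Real.log 2) +
      d * (((m - (m - j) : ℕ) : ℝ) * Real.log 2)) := by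
    intro j
    by_cases hj : g j = 0
    · exact ⟨Ω, inferInstance, p, id, fun _ => 0, hp, fun h => absurd hj h,
        fun _ => Nat.zero_le _, fun h => absurd hj h⟩
    · obtain ⟨Ω', i, q, pr, W, q1, q2, q3, q4⟩ := local_step hSEC h hN ha1 hlam (n := m - j)
        (J := m) (Nat.sub_le m j) hM (hf.cond J hj)
      exact ⟨Ω', i, q, pr, W, q1, fun _ => q2, q3, fun _ => q4⟩
  choose A iA qA prA wA hqA hMA hwA hinA using hloc
  have hsA : ∀ j, g j ≠ 0 → ∑ x, qA j x = 1 := fun j hj => by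
    rw [(hMA j hj).sum]
    exact sum_cond p J hj
  -- the extension
  let gi : ↥(univ.image J) → ℝ := fun i => g i.1
  let qi : ∀ i : ↥(univ.image J), A i.1 → ℝ := fun i => qA i.1
  let pr : (Σ i : ↥(univ.image J), A i.1) → Ω := fun x => prA x.1.1 x.2
  let W : (Σ i : ↥(univ.image J), A i.1) → ℕ := fun x => lev (m - x.1.1) N (wA x.1.1 x.2) * N' / m
  have hgi : ∀ i : ↥(univ.image J), 0 ≤ gi i := fun i => hg0 i.1
  have hqi : ∀ (i : ↥(univ.image J)) x, 0 ≤ qi i x := fun i x => hqA i.1 x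
  have hq : ∀ x, 0 ≤ sq gi qi x := fun x => mul_nonneg (hgi _) (hqi _ _)
  have hsumi : ∀ f : ℕ → ℝ, ∑ i : ↥(univ.image J), f i.1 = ∑ j ∈ univ.image J, f j :=
    fun f => Finset.sum_coe_sort (univ.image J) f
  have hMg : Marg (sq gi qi) p pr := by
    refine marg_sig gi qi p (fun i : ↥(univ.image J) => prA i.1) (fun i : ↥(univ.image J) => cond p J i.1)
      (fun i hi => hMA i.1 hi) ?_
    intro ω
    rw [show ∑ i : ↥(univ.image J), gi i * cond p J i.1 ω = ∑ j ∈ univ.image J, g j * cond p J j ω from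
      hsumi (fun j => g j * cond p J j ω)]
    rw [Finset.sum_eq_single (J ω)]
    · unfold Pool.Agent.H49.Ent.cond
      rw [if_pos rfl]
      by_cases h0 : g (J ω) = 0
      · have := le_law hp J ω
        have h2 : law p J (J ω) = 0 := h0
        rw [h2] at this
        have h3 : p ω = 0 := le_antisymm this (hp ω)
        rw [h3, h0]
        ring
      · simp only [hg] at h0 ⊢
        field_simp
    · intro j _ hj
      unfold Pool.Agent.H49.Ent.cond
      rw [if_neg (Ne.symm hj), mul_zero]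
    · intro hh
      exact absurd (Finset.mem_image_of_mem J (Finset.mem_univ ω)) hh
  have hqs : ∑ x, sq gi qi x = 1 := by rw [hMg.sum, h1]
  have hsup : ∀ x, 0 < sq gi qi x → 0 < gi x.1 ∧ 0 < qi x.1 x.2 := by
    intro x hx
    have := hx
    simp only [sq] at this
    rcases (hgi x.1).eq_or_lt with h0 | h0
    · rw [← h0, zero_mul] at this
      exact absurd this (lt_irrefl _)
    · exact ⟨h0, (pos_iff_pos_of_mul_pos this).mp h0⟩
  have hJx : ∀ (j : ℕ), g j ≠ 0 → ∀ x, 0 < qA j x → J (prA j x) = j := by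
    intro j hj x hx
    exact ((cond_pos_iff hp J j _).mp ((hMA j hj).pos (hqA j) hx)).2
  have hlevW : ∀ x : (Σ i : ↥(univ.image J), A i.1), lev m N' (W x) ≤ lev (m - x.1.1) N (wA x.1.1 x.2) := by
    intro x
    change lev (m - x.1.1) N (wA x.1.1 x.2) * N' / m * m / N' ≤ _
    refine Nat.div_le_of_le_mul ?_
    rw [mul_comm N']
    exact Nat.div_mul_le_self _ _
  have hWN : ∀ x, W x ≤ N' := by
    intro x
    refine Nat.div_le_of_le_mul (Nat.mul_le_mul_right N' ?_)
    exact (lev_le hN (hwA _ _)).trans (Nat.sub_le _ _)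
  -- the gain
  have u1 : (1 - Ex (sq gi qi) (fun x => (W x : ℝ)) / N') * m ≤
      ∑ j ∈ univ.image J, g j * ((1 - Ex (qA j) (fun x => (wA j x : ℝ)) / N) *
        ((m - j : ℕ) : ℝ)) + w + 1 + m / N' := by
    have v1 : ∀ i : ↥(univ.image J), gi i * ((1 - Ex (qi i) (fun x => (W ⟨i, x⟩ : ℝ)) / N') * m) ≤
        gi i * ((1 - Ex (qA i.1) (fun x => (wA i.1 x : ℝ)) / N) * ((m - i.1 : ℕ) : ℝ)) +
          gi i * (i.1 : ℝ) + gi i * (1 + m / N') := by
      intro i
      by_cases h0 : gi i = 0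
      · rw [h0]
        simp
      · have hs := hsA i.1 h0
        rw [← mul_add, ← mul_add]
        refine mul_le_mul_of_nonneg_left ?_ (hgi i)
        have v2 := Ex_mono (hqi i) (f := fun x => (1 - (W ⟨i, x⟩ : ℝ) / N') * m)
          (g := fun x => (1 - (wA i.1 x : ℝ) / N) * ((m - i.1 : ℕ) : ℝ) + i.1 + 1 + m / N')
          (fun x _ => lev_ineq (hjm i.1 i.2) hN hN')
        have v3 : Ex (qi i) (fun x => (1 - (W ⟨i, x⟩ : ℝ) / N') * m) =
            (1 - Ex (qi i) (fun x => (W ⟨i, x⟩ : ℝ)) / N') * m := by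
          have : ∀ x, (1 - (W ⟨i, x⟩ : ℝ) / N') * m = m + (-(m / N')) * (W ⟨i, x⟩ : ℝ) := by
            intro x
            ring
          simp_rw [this]
          rw [Ex_add, Ex_const hs, Ex_smul]
          ring
        have v4 : Ex (qi i) (fun x => (1 - (wA i.1 x : ℝ) / N) * ((m - i.1 : ℕ) : ℝ) + i.1 + 1 +
              m / N') =
            (1 - Ex (qA i.1) (fun x => (wA i.1 x : ℝ)) / N) * ((m - i.1 : ℕ) : ℝ) + i.1 + 1 +
              m / N' := by
          have : ∀ x, (1 - (wA i.1 x : ℝ) / N) * ((m - i.1 : ℕ) : ℝ) + i.1 + 1 + m / N' =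
              (((m - i.1 : ℕ) : ℝ) + i.1 + 1 + m / N') +
                (-(((m - i.1 : ℕ) : ℝ) / N)) * (wA i.1 x : ℝ) := by
            intro x
            ring
          simp_rw [this]
          rw [Ex_add, Ex_const hs, Ex_smul]
          ring
        rw [v3, v4] at v2
        linarith
    have v5 := Finset.sum_le_sum fun i (_ : i ∈ (univ : Finset ↥(univ.image J))) => v1 i
    rw [Finset.sum_add_distrib, Finset.sum_add_distrib] at v5
    have v6 : ∑ i : ↥(univ.image J), gi i * ((1 - Ex (qi i) (fun x => (W ⟨i, x⟩ : ℝ)) / N') * m) =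
        (1 - Ex (sq gi qi) (fun x => (W x : ℝ)) / N') * m := by
      rw [Ex_sig]
      have hg1 : ∑ i : ↥(univ.image J), gi i = 1 := by
        rw [show ∑ i : ↥(univ.image J), gi i = ∑ j ∈ univ.image J, g j from hsumi g]
        exact sum_law_one h1 J
      have : ∀ i : ↥(univ.image J), gi i * ((1 - Ex (qi i) (fun x => (W ⟨i, x⟩ : ℝ)) / N') * m) =
          gi i * m - (gi i * Ex (qi i) (fun x => (W ⟨i, x⟩ : ℝ))) * (m / N') := by
        intro i
        ring
      simp_rw [this]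
      rw [Finset.sum_sub_distrib, ← Finset.sum_mul, ← Finset.sum_mul, hg1]
      ring
    have v7 : ∑ i : ↥(univ.image J), gi i * ((1 - Ex (qA i.1) (fun x => (wA i.1 x : ℝ)) / N) *
        ((m - i.1 : ℕ) : ℝ)) = ∑ j ∈ univ.image J, g j *
          ((1 - Ex (qA j) (fun x => (wA j x : ℝ)) / N) * ((m - j : ℕ) : ℝ)) :=
      hsumi (fun j => g j * ((1 - Ex (qA j) (fun x => (wA j x : ℝ)) / N) * ((m - j : ℕ) : ℝ)))
    have v8 : ∑ i : ↥(univ.image J), gi i * (i.1 : ℝ) = w := by
      rw [show ∑ i : ↥(univ.image J), gi i * (i.1 : ℝ) = ∑ j ∈ univ.image J, g j * (j : ℝ) from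
        hsumi (fun j => g j * (j : ℝ)), t7]
    have v9 : ∑ i : ↥(univ.image J), gi i * (1 + (m : ℝ) / N') = 1 + m / N' := by
      rw [← Finset.sum_mul, show ∑ i : ↥(univ.image J), gi i = ∑ j ∈ univ.image J, g j from hsumi g,
        sum_law_one h1 J, one_mul]
    rw [v6, v7, v8, v9] at v5
    linarith
  -- the caps
  have u2 : CH (sq gi qi) (fun x => cap m (lev m N' (W x)) (v (pr x)))
        (fun x => (W x, Z (pr x))) ≤
      ∑ j ∈ univ.image J, g j * CH (qA j) (fun x => cap m (lev (m - j) N (wA j x)) (v (prA j x)))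
        (fun x => (wA j x, (Z (prA j x), τ (prA j x) / 2 ^ (m - j)))) +
      CH p (fun ω => (J ω, Q ω)) Z + Real.log (N + 1) := by
    have w1 := CH_le_add hq (fun x => cap m (lev m N' (W x)) (v (pr x)))
      (fun x => (J (pr x), Q (pr x))) (fun x => (W x, Z (pr x)))
    have w2 : CH (sq gi qi) (fun x => (J (pr x), Q (pr x))) (fun x => (W x, Z (pr x))) ≤
        CH (sq gi qi) (fun x => (J (pr x), Q (pr x))) (fun x => Z (pr x)) := by
      refine CH_mono_cond hq ?_
      intro x y _ _ e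
      exact (Prod.ext_iff.mp e).2
    have w3 : CH (sq gi qi) (fun x => (J (pr x), Q (pr x))) (fun x => Z (pr x)) =
        CH p (fun ω => (J ω, Q ω)) Z := hMg.CH (fun ω => (J ω, Q ω)) Z
    have hJpr : ∀ x, 0 < sq gi qi x → J (pr x) = x.1.1 := by
      intro x hx
      obtain ⟨h2, h3⟩ := hsup x hx
      exact hJx x.1.1 h2.ne' x.2 h3
    have w4 : CH (sq gi qi) (fun x => cap m (lev m N' (W x)) (v (pr x)))
        (fun x => ((J (pr x), Q (pr x)), (W x, Z (pr x)))) =
        CH (sq gi qi) (fun x => cap m (lev m N' (W x)) (v (pr x)))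
        (fun x => ((W x, (Z (pr x), Q (pr x))), x.1)) := by
      refine CH_congr hq ?_ ?_ ?_ ?_
      · intro x y _ _ e; exact (Prod.ext_iff.mp e).1
      · intro x y _ _ e; exact (Prod.ext_iff.mp e).1
      · intro x y a b e
        simp only [Prod.mk.injEq] at e ⊢
        refine ⟨⟨e.2.1, e.2.2, e.1.2⟩, ?_⟩
        apply Subtype.ext
        rw [← hJpr x a, ← hJpr y b]
        exact e.1.1
      · intro x y a b e
        simp only [Prod.mk.injEq] at e ⊢
        refine ⟨⟨?_, e.1.2.2⟩, e.1.1, e.1.2.1⟩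
        rw [hJpr x a, hJpr y b, e.2]
    have w5 := CH_sig gi qi hgi hqi (fun x => cap m (lev m N' (W x)) (v (pr x)))
      (fun x => (W x, (Z (pr x), Q (pr x))))
    have w6 : ∀ i : ↥(univ.image J), gi i * CH (qi i) (fun x => cap m (lev m N' (W ⟨i, x⟩)) (v (pr ⟨i, x⟩)))
        (fun x => (W ⟨i, x⟩, (Z (pr ⟨i, x⟩), Q (pr ⟨i, x⟩)))) ≤
        gi i * CH (qA i.1) (fun x => cap m (lev (m - i.1) N (wA i.1 x)) (v (prA i.1 x)))
          (fun x => (wA i.1 x, (Z (prA i.1 x), τ (prA i.1 x) / 2 ^ (m - i.1)))) +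
        gi i * Real.log (N + 1) := by
      intro i
      by_cases h0 : gi i = 0
      · rw [h0]
        simp
      · rw [← mul_add]
        refine mul_le_mul_of_nonneg_left ?_ (hgi i)
        have hs := hsA i.1 h0
        have x1 := CH_le_add (hqi i) (fun x => cap m (lev m N' (W ⟨i, x⟩)) (v (pr ⟨i, x⟩)))
          (fun x => wA i.1 x) (fun x => (W ⟨i, x⟩, (Z (pr ⟨i, x⟩), Q (pr ⟨i, x⟩))))
        have x2 := CH_nat_le (hqi i) hs (fun x => wA i.1 x) (hwA i.1)
          (fun x => (W ⟨i, x⟩, (Z (pr ⟨i, x⟩), Q (pr ⟨i, x⟩))))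
        have x3 : CH (qi i) (fun x => cap m (lev m N' (W ⟨i, x⟩)) (v (pr ⟨i, x⟩)))
            (fun x => (wA i.1 x, (W ⟨i, x⟩, (Z (pr ⟨i, x⟩), Q (pr ⟨i, x⟩))))) ≤
            CH (qi i) (fun x => cap m (lev m N' (W ⟨i, x⟩)) (v (pr ⟨i, x⟩)))
            (fun x => (wA i.1 x, (Z (prA i.1 x), τ (prA i.1 x) / 2 ^ (m - i.1)))) := by
          refine CH_mono_cond (hqi i) ?_
          intro x y a b e
          simp only [Prod.mk.injEq] at e ⊢
          refine ⟨e.1, e.2.2.1, ?_⟩
          have e4 := e.2.2.2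
          have ja : J (pr ⟨i, x⟩) = i.1 := hJx i.1 h0 x a
          have jb : J (pr ⟨i, y⟩) = i.1 := hJx i.1 h0 y b
          simpa only [hQ, ja, jb] using e4
        have x4 : CH (qi i) (fun x => cap m (lev m N' (W ⟨i, x⟩)) (v (pr ⟨i, x⟩)))
            (fun x => (wA i.1 x, (Z (prA i.1 x), τ (prA i.1 x) / 2 ^ (m - i.1)))) ≤
            CH (qA i.1) (fun x => cap m (lev (m - i.1) N (wA i.1 x)) (v (prA i.1 x)))
            (fun x => (wA i.1 x, (Z (prA i.1 x), τ (prA i.1 x) / 2 ^ (m - i.1)))) := by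
          refine CH_mono_left (hqi i) ?_
          intro x y a b e
          simp only [Prod.mk.injEq] at e
          obtain ⟨e1, e2, _⟩ := e
          have hWxy : W ⟨i, x⟩ = W ⟨i, y⟩ := by
            change lev (m - i.1) N (wA i.1 x) * N' / m = lev (m - i.1) N (wA i.1 y) * N' / m
            rw [e2]
          have hl1 : lev m N' (W ⟨i, x⟩) ≤ lev (m - i.1) N (wA i.1 x) := hlevW ⟨i, x⟩
          have hl2 : lev (m - i.1) N (wA i.1 x) ≤ m :=
            (lev_le hN (hwA _ _)).trans (Nat.sub_le _ _)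
          have hcc : ∀ z : Fin d → ℤ, cap m (lev m N' (W ⟨i, x⟩)) z =
              fun k => cap m (lev (m - i.1) N (wA i.1 x)) z k /
                2 ^ (lev (m - i.1) N (wA i.1 x) - lev m N' (W ⟨i, x⟩)) := by
            intro z
            funext k
            unfold cap
            rw [Int.ediv_ediv_of_nonneg (by positivity), ← pow_add]
            congr 2
            omega
          change cap m (lev m N' (W ⟨i, x⟩)) (v (prA i.1 x)) =
            cap m (lev m N' (W ⟨i, y⟩)) (v (prA i.1 y))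
          rw [← hWxy, hcc, hcc, e1, e2]
        linarith
    have w7 := Finset.sum_le_sum fun i (_ : i ∈ (univ : Finset ↥(univ.image J))) => w6 i
    rw [Finset.sum_add_distrib] at w7
    have w8 : ∑ i : ↥(univ.image J), gi i * CH (qA i.1)
          (fun x => cap m (lev (m - i.1) N (wA i.1 x)) (v (prA i.1 x)))
          (fun x => (wA i.1 x, (Z (prA i.1 x), τ (prA i.1 x) / 2 ^ (m - i.1)))) =
        ∑ j ∈ univ.image J, g j * CH (qA j)
          (fun x => cap m (lev (m - j) N (wA j x)) (v (prA j x)))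
          (fun x => (wA j x, (Z (prA j x), τ (prA j x) / 2 ^ (m - j)))) :=
      hsumi (fun j => g j * CH (qA j)
          (fun x => cap m (lev (m - j) N (wA j x)) (v (prA j x)))
          (fun x => (wA j x, (Z (prA j x), τ (prA j x) / 2 ^ (m - j)))))
    have w9 : ∑ i : ↥(univ.image J), gi i * Real.log (N + 1) = Real.log (N + 1) := by
      rw [← Finset.sum_mul, show ∑ i : ↥(univ.image J), gi i = ∑ j ∈ univ.image J, g j from hsumi g,
        sum_law_one h1 J, one_mul]
    rw [w8, w9] at w7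
    linarith
  -- the local inequalities
  have t8 : CH p v (fun ω => ((Z ω, Q ω), J ω)) ≤
      ∑ j ∈ univ.image J, g j * (a * (CH (cond p J j) τ (fun ω => (Z ω, τ ω / 2 ^ (m - j))) +
        (Sf M (cond p J j) Z v u τ + 2 * d) - ((m - j : ℕ) : ℝ) * Real.log 2) -
        k * ((1 - Ex (qA j) (fun x => (wA j x : ℝ)) / N) * (((m - j : ℕ) : ℝ) * Real.log 2)) -
        (a - 1) * CH (qA j) (fun x => cap m (lev (m - j) N (wA j x)) (v (prA j x)))
          (fun x => (wA j x, (Z (prA j x), τ (prA j x) / 2 ^ (m - j)))) +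
        (a - 1) * Real.log (N + 1) +
        lam * (Real.log (2 ^ (m - j)) - CH (cond p J j) τ (b'' j)) + B₀ + B₁ * Gj j +
        ε * (((m - j : ℕ) : ℝ) * Real.log 2) + d * (j * Real.log 2)) := by
    rw [CH_split hp v (fun ω => (Z ω, Q ω)) J]
    refine Finset.sum_le_sum fun j hj => ?_
    by_cases hj0 : g j = 0
    · simp only [hg] at hj0
      simp [hg, hj0]
    · refine mul_le_mul_of_nonneg_left ?_ (hg0 j)
      rw [hcv j, Real.log_pow]
      have := hinA j hj0
      rwa [Nat.sub_sub_self (hjm j hj)] at this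
  have t9 : ∑ j ∈ univ.image J, g j * (a * (CH (cond p J j) τ (fun ω => (Z ω, τ ω / 2 ^ (m - j))) +
        (Sf M (cond p J j) Z v u τ + 2 * d) - ((m - j : ℕ) : ℝ) * Real.log 2) -
        k * ((1 - Ex (qA j) (fun x => (wA j x : ℝ)) / N) * (((m - j : ℕ) : ℝ) * Real.log 2)) -
        (a - 1) * CH (qA j) (fun x => cap m (lev (m - j) N (wA j x)) (v (prA j x)))
          (fun x => (wA j x, (Z (prA j x), τ (prA j x) / 2 ^ (m - j)))) +
        (a - 1) * Real.log (N + 1) +
        lam * (Real.log (2 ^ (m - j)) - CH (cond p J j) τ (b'' j)) + B₀ + B₁ * Gj j +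
        ε * (((m - j : ℕ) : ℝ) * Real.log 2) + d * (j * Real.log 2)) =
      a * ∑ j ∈ univ.image J, g j * CH (cond p J j) τ (fun ω => (Z ω, τ ω / 2 ^ (m - j))) +
      a * ∑ j ∈ univ.image J, g j * Sf M (cond p J j) Z v u τ + a * (2 * d) +
      (ε - a) * ∑ j ∈ univ.image J, g j * (((m - j : ℕ) : ℝ) * Real.log 2) -
      (k * Real.log 2) * ∑ j ∈ univ.image J, g j *
        ((1 - Ex (qA j) (fun x => (wA j x : ℝ)) / N) * ((m - j : ℕ) : ℝ)) -
      (a - 1) * ∑ j ∈ univ.image J, g j * CH (qA j)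
        (fun x => cap m (lev (m - j) N (wA j x)) (v (prA j x)))
          (fun x => (wA j x, (Z (prA j x), τ (prA j x) / 2 ^ (m - j)))) +
      (a - 1) * Real.log (N + 1) +
      lam * KL + B₀ + B₁ * ∑ j ∈ univ.image J, g j * Gj j +
      (d * Real.log 2) * ∑ j ∈ univ.image J, g j * (j : ℝ) := by
    rw [t4]
    have hs := sum_law_one h1 J
    have e1 : ∀ j, g j * (a * (CH (cond p J j) τ (fun ω => (Z ω, τ ω / 2 ^ (m - j))) +
        (Sf M (cond p J j) Z v u τ + 2 * d) - ((m - j : ℕ) : ℝ) * Real.log 2) -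
        k * ((1 - Ex (qA j) (fun x => (wA j x : ℝ)) / N) * (((m - j : ℕ) : ℝ) * Real.log 2)) -
        (a - 1) * CH (qA j) (fun x => cap m (lev (m - j) N (wA j x)) (v (prA j x)))
          (fun x => (wA j x, (Z (prA j x), τ (prA j x) / 2 ^ (m - j)))) +
        (a - 1) * Real.log (N + 1) +
        lam * (Real.log (2 ^ (m - j)) - CH (cond p J j) τ (b'' j)) + B₀ + B₁ * Gj j +
        ε * (((m - j : ℕ) : ℝ) * Real.log 2) + d * (j * Real.log 2)) =
        a * (g j * CH (cond p J j) τ (fun ω => (Z ω, τ ω / 2 ^ (m - j)))) +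
        a * (g j * Sf M (cond p J j) Z v u τ) + g j * (a * (2 * d)) +
        (ε - a) * (g j * (((m - j : ℕ) : ℝ) * Real.log 2)) +
        (-(k * Real.log 2)) * (g j *
          ((1 - Ex (qA j) (fun x => (wA j x : ℝ)) / N) * ((m - j : ℕ) : ℝ))) +
        (-(a - 1)) * (g j * CH (qA j)
          (fun x => cap m (lev (m - j) N (wA j x)) (v (prA j x)))
          (fun x => (wA j x, (Z (prA j x), τ (prA j x) / 2 ^ (m - j))))) +
        g j * ((a - 1) * Real.log (N + 1)) +
        lam * (g j * (Real.log (2 ^ (m - j)) - CH (cond p J j) τ (b'' j))) + g j * B₀ +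
        B₁ * (g j * Gj j) + (d * Real.log 2) * (g j * (j : ℝ)) := by
      intro j; ring
    simp_rw [e1]
    simp only [Finset.sum_add_distrib, ← Finset.mul_sum, ← Finset.sum_mul]
    rw [hs]
    ring
  rw [t9, ← t12, t13, t7] at t8
  -- removing the interval
  have t10 : CH p v Z ≤ CH p v (fun ω => ((Z ω, Q ω), J ω)) +
      CH p (fun ω => (J ω, Q ω)) Z := by
    have c1 := CH_le_add hp v (fun ω => (J ω, Q ω)) Z
    have c2 : CH p v (fun ω => ((J ω, Q ω), Z ω)) = CH p v (fun ω => ((Z ω, Q ω), J ω)) := by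
      refine CH_congr hp ?_ ?_ ?_ ?_ <;>
      · intro w w' _ _ e
        simp only [Prod.mk.injEq] at e ⊢
        tauto
    linarith
  have k0 : 0 ≤ B₁ * (2 / e) := by positivity
  refine ⟨w, KL, hw0, hKL0, ?_, (Σ i : ↥(univ.image J), A i.1), inferInstance, sq gi qi, pr, W, hq, hMg, hWN, ?_⟩
  · have k1 := le_abs_self c₁
    have k2 : 0 ≤ |C₁| * (B₁ * (2 / e)) := by positivity
    have k3 : 0 ≤ |c₁| * (a + B₁ * (2 / e)) := by positivity
    have k4 : 0 ≤ a * (2 * d) := by positivity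
    have k5 : 0 ≤ k * Real.log 2 := by positivity
    have k6 := abs_nonneg B₀
    have k7 : 0 ≤ (a - 1) * (2 * Real.log (N + 1)) := by positivity
    unfold Kf
    linarith
  · have k1 := le_abs_self c₁
    have k2 := le_abs_self B₀
    have k3 := mul_le_mul_of_nonneg_left t6 ha
    have k4 := mul_le_mul_of_nonneg_left t5 hB
    have e1 : B₁ * (2 / e * (|C₁| + |c₁| + e₁ * w)) =
        |C₁| * (B₁ * (2 / e)) + |c₁| * (B₁ * (2 / e)) + w * (B₁ * (2 / e) * e₁) := by ring
    rw [e1] at k4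
    have k8 := mul_le_mul_of_nonneg_left t11 ha
    have k10 : 0 ≤ ε * (w * Real.log 2) := by positivity
    have k11 : a * c₁ ≤ a * |c₁| := mul_le_mul_of_nonneg_left k1 ha
    have k12 := abs_nonneg c₁
    have k13 := mul_le_mul_of_nonneg_left u1 (show 0 ≤ k * Real.log 2 by positivity)
    have k14 := mul_le_mul_of_nonneg_left u2 ha0'
    unfold Sb
    linarith

end Lpa99

open Lpa99

/-- (LPA) Localisation of level one plus. -/
theorem lpa (hSEC : SEC3Stmt) : LPAStmt := by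
  intro d a Λ k ha hΛ hk h ε hε ε' hε'
  obtain ⟨N, hN, B₀, B₁, hB, hAg⟩ := h (ε' / 2) (by positivity)
  have hlog2 : 0 < Real.log 2 := Real.log_pos (by norm_num)
  have hd : (0 : ℝ) ≤ d := Nat.cast_nonneg d
  obtain ⟨N', hN', hN'k⟩ : ∃ N' : ℕ, 0 < N' ∧ k / N' ≤ ε' / 2 := by
    refine ⟨⌈k / (ε' / 2)⌉₊ + 1, Nat.succ_pos _, ?_⟩
    have h1 := Nat.le_ceil (k / (ε' / 2))
    rw [div_le_iff₀ (by positivity)]
    rw [div_le_iff₀ (by positivity)] at h1
    push_cast
    nlinarith
  obtain ⟨e, he, he2⟩ : ∃ e : ℝ, 0 < e ∧ (1 + ε) * e = ε * Real.log 2 / 4 := by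
    refine ⟨ε * Real.log 2 / 4 / (1 + ε), by positivity, ?_⟩
    field_simp
  obtain ⟨e₁, he₁, he₁e, he₁2⟩ : ∃ e₁ : ℝ, 0 < e₁ ∧ e₁ ≤ e ∧
      (a + B₁ * (2 / e)) * e₁ ≤ ε * Real.log 2 / 2 := by
    refine ⟨min e (ε * Real.log 2 / 2 / (a + B₁ * (2 / e))), lt_min he (by positivity),
      min_le_left _ _, ?_⟩
    have hpos : 0 < a + B₁ * (2 / e) := by positivity
    calc (a + B₁ * (2 / e)) * min e (ε * Real.log 2 / 2 / (a + B₁ * (2 / e))) ≤
        (a + B₁ * (2 / e)) * (ε * Real.log 2 / 2 / (a + B₁ * (2 / e))) := by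
          gcongr
          exact min_le_right _ _
      _ = ε * Real.log 2 / 2 := by field_simp
  obtain ⟨C, hC0, hC⟩ := local_sum hSEC hAg hN ha hΛ hk hB (by positivity) he he₁ hN'
  set L : ℝ := max Λ ((1 + ε) * (a + d + k)) with hL
  have hL1 : Λ ≤ L := le_max_left _ _
  have hL2 : (1 + ε) * (a + d + k) ≤ L := le_max_right _ _
  have hL0 : 0 ≤ L := hΛ.trans hL1
  refine ⟨N', hN', L * C + C, ?_⟩
  intro J Ω _ ζ p Z v u τ hf
  obtain ⟨w, KL, hw, hKL, r1, Ω', inst, q, pr, W, hq, hM, hW, r2⟩ := hC J Ω ζ p Z v u τ hf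
  refine ⟨Ω', inst, q, pr, W, hq, hM, hW, ?_⟩
  -- the coefficient of `w`
  have k0 : 0 ≤ Real.log 2 - e - e₁ := by
    have : e ≤ Real.log 2 / 4 := by
      have h3 : (1 + ε) * e ≤ (1 + ε) * (Real.log 2 / 4) := by
        rw [he2]
        nlinarith
      exact le_of_mul_le_mul_left h3 (by positivity)
    linarith
  have k1 : (a + d + k) * Real.log 2 + a * e₁ + B₁ * (2 / e) * e₁ ≤
      L * (Real.log 2 - e - e₁) := by
    have i1 : (1 + ε) * (a + d + k) * (Real.log 2 - e - e₁) ≤ L * (Real.log 2 - e - e₁) :=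
      mul_le_mul_of_nonneg_right hL2 k0
    have i2 : (1 + ε) * (e + e₁) ≤ ε * Real.log 2 / 2 := by
      have : (1 + ε) * e₁ ≤ (1 + ε) * e := by gcongr
      linarith
    have i3 : (a + d + k) * ((1 + ε) * (e + e₁)) ≤ (a + d + k) * (ε * Real.log 2 / 2) := by
      gcongr
    have i4 : ε * Real.log 2 / 2 ≤ (a + d + k) * (ε * Real.log 2 / 2) := by
      have : 0 ≤ ε * Real.log 2 / 2 := by positivity
      have h1 : 1 ≤ a + d + k := by linarith
      exact le_mul_of_one_le_left this h1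
    linarith
  have k2 := mul_le_mul_of_nonneg_left k1 hw
  have k3 := mul_le_mul_of_nonneg_left r1 hL0
  have k4 := mul_le_mul_of_nonneg_right hL1 hKL
  have k5 : k * (J / N' * Real.log 2) ≤ ε' / 2 * (J * Real.log 2) := by
    have : k * (J / N' * Real.log 2) = k / N' * (J * Real.log 2) := by ring
    rw [this]
    exact mul_le_mul_of_nonneg_right hN'k (by positivity)
  linarith

end Pool.LQ
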