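import Pool.Agent.H60.LQ.Stmts

/-!
# LQ, row CEN: cross energies of two integers which are conditionally independent
-/

set_option autoImplicit false

namespace Pool.LQ

open Finset Real
open Pool.Agent.H49.Ent Pool.Agent.H32.Dense

theorem cen_sum {Ω S : Type*} [Fintype Ω] [DecidableEq S] (p : Ω → ℝ) (V : Ω → S)
    (F : Finset S) (hF : ∀ ω, V ω ∈ F) (g : S → ℝ) :
    ∑ ω, p ω * g (V ω) = ∑ s ∈ F, law p V s * g s := by
  rw [sum_mul_eq_sum_image]
  refine Finset.sum_subset (fun s hs => ?_) (fun s _ hs => ?_)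
  · obtain ⟨ω, _, rfl⟩ := Finset.mem_image.mp hs
    exact hF ω
  · rw [law_eq_zero_of_notMem p V hs, zero_mul]

theorem cen_sum2 {Ω α β : Type*} [Fintype Ω] [DecidableEq α] [DecidableEq β] (p : Ω → ℝ)
    (X : Ω → α) (W : Ω → β) (S : Finset α) (I : Finset β) (hS : ∀ ω, X ω ∈ S)
    (hI : ∀ ω, W ω ∈ I) (g : α → β → ℝ) :
    ∑ ω, p ω * g (X ω) (W ω) =
      ∑ z ∈ I, ∑ x ∈ S, law p (fun ω => (X ω, W ω)) (x, z) * g x z := by
  have h := cen_sum p (fun ω => (X ω, W ω)) (S ×ˢ I)
    (fun ω => Finset.mem_product.mpr ⟨hS ω, hI ω⟩) (fun s => g s.1 s.2)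
  simp only at h
  rw [h, Finset.sum_product_right]

theorem cen_marg {Ω β : Type*} [Fintype Ω] [DecidableEq β] (p : Ω → ℝ) (X : Ω → ℤ)
    (W : Ω → β) (S : Finset ℤ) (I : Finset β) (hS : ∀ ω, X ω ∈ S) (hI : ∀ ω, W ω ∈ I)
    (z : β) (hz : z ∈ I) : ∑ x ∈ S, law p (fun ω => (X ω, W ω)) (x, z) = law p W z := by
  have h := cen_sum2 p X W S I hS hI (fun _ z' => if z' = z then (1 : ℝ) else 0)
  have h1 : ∑ ω, p ω * (if W ω = z then (1 : ℝ) else 0) = law p W z := by
    unfold law
    refine Finset.sum_congr rfl (fun ω _ => ?_)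
    by_cases hw : W ω = z
    · simp [hw]
    · simp [hw]
  rw [← h1, h, Finset.sum_eq_single z]
  · exact Finset.sum_congr rfl (fun x _ => by simp)
  · intro z' _ hz'
    exact Finset.sum_eq_zero (fun x _ => by simp [hz'])
  · intro hn
    exact absurd hz hn

theorem cen_dbl {Ω β : Type*} [Fintype Ω] [DecidableEq β] (p : Ω → ℝ) (X : Ω → ℤ)
    (W : Ω → β) (S : Finset ℤ) (I : Finset β) (hS : ∀ ω, X ω ∈ S) (hI : ∀ ω, W ω ∈ I)
    (g : ℤ → ℤ → ℝ) :
    Ex (dbl p W) (fun w => g (X w.1) (X w.2)) =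
      ∑ z ∈ I, ∑ x ∈ S, ∑ y ∈ S, law p (fun ω => (X ω, W ω)) (x, z) *
        law p (fun ω => (X ω, W ω)) (y, z) / law p W z * g x y := by
  have h1 : ∀ ω, ∑ ω', dbl p W (ω, ω') * g (X ω) (X ω') =
      p ω * ∑ y ∈ S, law p (fun ω => (X ω, W ω)) (y, W ω) / law p W (W ω) * g (X ω) y := by
    intro ω
    have h2 := cen_sum2 p X W S I hS hI (fun y z => if z = W ω then g (X ω) y else 0)
    have h3 : ∑ z ∈ I, ∑ x ∈ S, law p (fun ω => (X ω, W ω)) (x, z) *
        (if z = W ω then g (X ω) x else 0) =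
        ∑ y ∈ S, law p (fun ω => (X ω, W ω)) (y, W ω) * g (X ω) y := by
      rw [Finset.sum_eq_single (W ω)]
      · exact Finset.sum_congr rfl (fun x _ => by simp)
      · intro z' _ hz'
        exact Finset.sum_eq_zero (fun x _ => by simp [hz'])
      · intro hn
        exact absurd (hI ω) hn
    rw [h3] at h2
    have h4 : ∀ ω', dbl p W (ω, ω') * g (X ω) (X ω') =
        p ω / law p W (W ω) * (p ω' * (if W ω' = W ω then g (X ω) (X ω') else 0)) := by
      intro ω'
      unfold dbl glue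
      by_cases hw : W ω' = W ω
      · simp only [hw, if_true]
        ring
      · simp only [hw, Ne.symm hw, if_false]
        ring
    rw [Finset.sum_congr rfl (fun ω' _ => h4 ω'), ← Finset.mul_sum, h2, Finset.mul_sum,
      Finset.mul_sum]
    refine Finset.sum_congr rfl (fun y _ => ?_)
    ring
  unfold Ex
  rw [Fintype.sum_prod_type]
  simp only
  rw [Finset.sum_congr rfl (fun ω _ => h1 ω)]
  rw [cen_sum2 p X W S I hS hI (fun x z => ∑ y ∈ S,
    law p (fun ω => (X ω, W ω)) (y, z) / law p W z * g x y)]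
  refine Finset.sum_congr rfl (fun z _ => Finset.sum_congr rfl (fun x _ => ?_))
  rw [Finset.mul_sum]
  refine Finset.sum_congr rfl (fun y _ => ?_)
  ring

theorem cen_scale (S : Finset ℤ) (a b : ℤ → ℝ) (L : ℝ) (hL : 0 < L) (g : ℤ → ℤ → ℝ) :
    L * ∑ x ∈ S, ∑ y ∈ S, a x / L * (b y / L) * g x y =
      ∑ x ∈ S, ∑ y ∈ S, a x * b y / L * g x y := by
  rw [Finset.mul_sum]
  refine Finset.sum_congr rfl (fun x _ => ?_)
  rw [Finset.mul_sum]
  refine Finset.sum_congr rfl (fun y _ => ?_)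
  field_simp

theorem cen (hP : PSDStmt) : CENStmt := by
  classical
  obtain ⟨C, hC⟩ := hP
  refine ⟨C, ?_⟩
  intro J Ω _ β p W X Y hp h1 hind
  set S : Finset ℤ := univ.image X ∪ univ.image Y with hSdef
  set I : Finset β := univ.image W with hIdef
  have hX : ∀ ω, X ω ∈ S := fun ω =>
    Finset.mem_union_left _ (Finset.mem_image_of_mem X (Finset.mem_univ ω))
  have hY : ∀ ω, Y ω ∈ S := fun ω =>
    Finset.mem_union_right _ (Finset.mem_image_of_mem Y (Finset.mem_univ ω))
  have hI : ∀ ω, W ω ∈ I := fun ω => Finset.mem_image_of_mem W (Finset.mem_univ ω)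
  have e1 : Ex p (fun ω => eg J (X ω) (Y ω)) = ∑ z ∈ I, ∑ x ∈ S, ∑ y ∈ S,
      law p (fun ω => (X ω, Y ω, W ω)) (x, y, z) * eg J x y := by
    have h := cen_sum p (fun ω => (X ω, Y ω, W ω)) (S ×ˢ (S ×ˢ I))
      (fun ω => Finset.mem_product.mpr ⟨hX ω, Finset.mem_product.mpr ⟨hY ω, hI ω⟩⟩)
      (fun s => eg J s.1 s.2.1)
    simp only at h
    unfold Ex
    rw [h, Finset.sum_product]
    simp_rw [Finset.sum_product_right]
    rw [Finset.sum_comm]
  have e2 := cen_dbl p X W S I hX hI (eg J)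
  have e3 := cen_dbl p Y W S I hY hI (eg J)
  have e4 : ∑ z ∈ I, law p W z = 1 := by
    have h := cen_sum p W I hI (fun _ => (1 : ℝ))
    simp only [mul_one] at h
    rw [← h, h1]
  have key : ∀ z ∈ I, ∑ x ∈ S, ∑ y ∈ S,
      law p (fun ω => (X ω, Y ω, W ω)) (x, y, z) * eg J x y ≤
      ((∑ x ∈ S, ∑ y ∈ S, law p (fun ω => (X ω, W ω)) (x, z) *
        law p (fun ω => (X ω, W ω)) (y, z) / law p W z * eg J x y) +
      ∑ x ∈ S, ∑ y ∈ S, law p (fun ω => (Y ω, W ω)) (x, z) *
        law p (fun ω => (Y ω, W ω)) (y, z) / law p W z * eg J x y) / 2 + C * law p W z := by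
    intro z hz
    rcases eq_or_lt_of_le (law_nonneg hp W z) with h0 | h0
    · have h2 : ∀ x y, law p (fun ω => (X ω, Y ω, W ω)) (x, y, z) = 0 := by
        intro x y
        refine le_antisymm ?_ (law_nonneg hp _ _)
        rw [h0]
        unfold law
        refine Finset.sum_le_sum (fun ω _ => ?_)
        by_cases hw : W ω = z
        · rw [if_pos hw]
          split_ifs
          · exact le_rfl
          · exact hp ω
        · rw [if_neg hw, if_neg]
          intro h
          exact hw (Prod.ext_iff.mp (Prod.ext_iff.mp h).2).2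
      simp [h2, ← h0]
    · have h2 := hC J S (fun x => law p (fun ω => (X ω, W ω)) (x, z) / law p W z)
        (fun x => law p (fun ω => (Y ω, W ω)) (x, z) / law p W z)
        (fun x => div_nonneg (law_nonneg hp _ _) h0.le)
        (fun x => div_nonneg (law_nonneg hp _ _) h0.le)
        (by rw [← Finset.sum_div, cen_marg p X W S I hX hI z hz, div_self h0.ne'])
        (by rw [← Finset.sum_div, cen_marg p Y W S I hY hI z hz, div_self h0.ne'])
      have h3 := mul_le_mul_of_nonneg_left h2 h0.le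
      have h4 : law p W z * ∑ x ∈ S, ∑ y ∈ S, law p (fun ω => (X ω, W ω)) (x, z) / law p W z *
          (law p (fun ω => (Y ω, W ω)) (y, z) / law p W z) * eg J x y =
          ∑ x ∈ S, ∑ y ∈ S, law p (fun ω => (X ω, Y ω, W ω)) (x, y, z) * eg J x y := by
        rw [cen_scale S _ _ _ h0]
        refine Finset.sum_congr rfl (fun x _ => Finset.sum_congr rfl (fun y _ => ?_))
        congr 1
        rw [div_eq_iff h0.ne']
        exact (hind x y z).symm
      have h5 := cen_scale S (fun x => law p (fun ω => (X ω, W ω)) (x, z))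
        (fun x => law p (fun ω => (X ω, W ω)) (x, z)) _ h0 (eg J)
      have h6 := cen_scale S (fun x => law p (fun ω => (Y ω, W ω)) (x, z))
        (fun x => law p (fun ω => (Y ω, W ω)) (x, z)) _ h0 (eg J)
      beta_reduce at h3 h5 h6
      rw [h4] at h3
      refine h3.trans (le_of_eq ?_)
      rw [← h5, ← h6]
      ring
  rw [e1, e2, e3]
  refine (Finset.sum_le_sum key).trans (le_of_eq ?_)
  rw [Finset.sum_add_distrib, ← Finset.sum_div, Finset.sum_add_distrib, ← Finset.mul_sum, e4,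
    mul_one]

end Pool.LQ
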