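import Pool.Agent.H60.LQ.Two
import Pool.Agent.H53.LQ.LOC

/-!
# Row LPA of LQ0, part 1: entropies, the local step
-/

set_option autoImplicit false

namespace Pool.LQ

open Finset Real
open Pool.Agent.H49.Ent Pool.Agent.H32.Dense Pool.KTH
open Pool.Agent.H24.KTH (dsv lvv lev cap Yf kp CAPStmt ONCStmt INFStmt)

namespace Lpa99

section Ent

variable {Ω : Type*} [Fintype Ω] {S T U V W : Type*}

theorem CH_nat_le {p : Ω → ℝ} (hp : ∀ ω, 0 ≤ p ω) (h1 : ∑ ω, p ω = 1) (w : Ω → ℕ) {N : ℕ}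
    (hw : ∀ x, w x ≤ N) (Y : Ω → T) : CH p w Y ≤ Real.log (N + 1) := by
  have h := CH_le_card hp h1 w Y (fun _ => Finset.range (N + 1)) (fun ω _ => by
    rw [Finset.mem_range]
    exact Nat.lt_succ_of_le (hw ω))
  rw [Finset.card_range, Ex_const h1] at h
  push_cast at h
  exact h

/-- Independence. -/
theorem ind_left {q : Ω → ℝ} (hq : ∀ x, 0 ≤ q x) (h1 : ∑ x, q x = 1) (A : Ω → S) (B : Ω → T)
    (C : Ω → U) (hind : CH q (fun x => (A x, B x)) C = H q (fun x => (A x, B x))) :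
    CH q A B ≤ CH q A (fun x => (B x, C x)) := by
  have h2 := subadd hq h1 (X := B) (Y := C) (W := fun x => (B x, C x)) (fun _ _ _ _ e => e)
  have h3 : H q (fun x => ((A x, B x), C x)) = H q (fun x => (A x, (B x, C x))) := by
    refine H_congr hq ?_ ?_ <;>
    · intro x y _ _ e
      simp only [Prod.mk.injEq] at e ⊢
      tauto
  unfold CH at hind ⊢
  linarith

theorem cap_section {q : Ω → ℝ} (hq : ∀ x, 0 ≤ q x) (h1 : ∑ x, q x = 1) (A : Ω → S) (B : Ω → T)
    (C : Ω → U) (w : Ω → ℕ) (X : Ω → V) {N : ℕ} (hw : ∀ x, w x ≤ N)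
    (hX : Det q (fun x => (A x, w x)) X)
    (hind : CH q (fun x => (A x, B x)) C = H q (fun x => (A x, B x))) :
    CH q X (fun x => (w x, B x)) - Real.log (N + 1) ≤ CH q X (fun x => (w x, (B x, C x))) := by
  have b1 := CH_bayes hq X C (fun x => (w x, B x))
  have b2 : CH q X (fun x => (C x, (w x, B x))) = CH q X (fun x => (w x, (B x, C x))) := by
    refine CH_congr hq ?_ ?_ ?_ ?_ <;>
    · intro x y _ _ e
      simp only [Prod.mk.injEq] at e ⊢
      tauto
  have b3 : CH q C (fun x => (w x, B x)) ≤ H q C := by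
    have := subadd hq h1 (X := C) (Y := fun x => (w x, B x)) (W := fun x => (C x, (w x, B x)))
      (fun _ _ _ _ e => e)
    unfold CH
    linarith
  have b4 : CH q C (fun x => (w x, (A x, B x))) ≤ CH q C (fun x => (X x, (w x, B x))) := by
    refine CH_mono_cond hq ?_
    intro x y a b e
    simp only [Prod.mk.injEq] at e ⊢
    exact ⟨hX x y a b (by simp only [Prod.mk.injEq]; exact ⟨e.2.1, e.1⟩), e.1, e.2.2⟩
  have b5 := CH_bayes hq C w (fun x => (A x, B x))
  have b6 := CH_nonneg hq w (fun x => (C x, (A x, B x)))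
  have b7 := CH_nat_le hq h1 w hw (fun x => (A x, B x))
  have b8 : CH q C (fun x => (A x, B x)) = H q C := by
    have : H q (fun x => (C x, (A x, B x))) = H q (fun x => ((A x, B x), C x)) := by
      refine H_congr hq ?_ ?_ <;>
      · intro x y _ _ e
        simp only [Prod.mk.injEq] at e ⊢
        tauto
    unfold CH at hind ⊢
    linarith
  linarith

end Ent

/-- Level one plus with given constants. -/
def Pg (d : ℕ) (a Λ k : ℝ) (N : ℕ) (B₀ B₁ ε : ℝ) : Prop :=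
  ∀ (J : ℕ) (Ω : Type) [Fintype Ω] (ζ : Type) (p : Ω → ℝ) (Z : Ω → ζ) (v : Ω → Fin d → ℤ)
    (u : Ω → Fin d → ℝ) (τ : Ω → ℤ), IsFam (2 ^ J) p Z v u τ →
    ∃ w : Ω → ℕ, (∀ ω, w ω ≤ N) ∧
    CH p v Z ≤ a * (Sb (2 ^ J) p Z v u τ - J * Real.log 2) -
      k * ((1 - Ex p (fun ω => (w ω : ℝ)) / N) * (J * Real.log 2)) -
      (a - 1) * CH p (fun ω => cap J (lev J N (w ω)) (v ω)) (fun ω => (w ω, Z ω)) +
      Λ * Kf (2 ^ J) p (bv Z v) τ + B₀ + B₁ * Gf (2 ^ J) p (bv Z v) τ + ε * (J * Real.log 2)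

theorem lev_le {n N k : ℕ} (hN : 0 < N) (h : k ≤ N) : lev n N k ≤ n := by
  unfold lev
  exact Nat.div_le_of_le_mul (Nat.mul_le_mul_right n h)

theorem cap_cap {d : ℕ} {J n l : ℕ} (hn : n ≤ J) (hl : l ≤ n) (x : Fin d → ℤ) :
    cap n l (fun k => x k / 2 ^ (J - n)) = cap J l x := by
  funext k
  unfold cap
  rw [Int.ediv_ediv_of_nonneg (by positivity), ← pow_add]
  congr 2
  omega

theorem local_step_aux (hSEC : SEC3Stmt) {d : ℕ} {a Λ k : ℝ} {N : ℕ} {B₀ B₁ ε : ℝ}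
    (h : Pg d a Λ k N B₀ B₁ ε) (hN : 0 < N) (ha : 1 ≤ a) (hΛ : 0 ≤ Λ)
    {M M' J n : ℕ} (hnJ : n ≤ J) (hM : M = 2 ^ J) (hM' : M' = 2 ^ n) {Ω : Type} [Fintype Ω]
    {ζ : Type} {p : Ω → ℝ} {Z : Ω → ζ} {v : Ω → Fin d → ℤ} {u : Ω → Fin d → ℝ} {τ : Ω → ℤ}
    (hf : IsFam M p Z v u τ) :
    ∃ (Ω' : Type) (_ : Fintype Ω') (q : Ω' → ℝ) (pr : Ω' → Ω) (w : Ω' → ℕ),
    (∀ x, 0 ≤ q x) ∧ Marg q p pr ∧ (∀ x, w x ≤ N) ∧
    CH p v (fun ω => (Z ω, τ ω / (M' : ℤ))) ≤
      a * (CH p τ (fun ω => (Z ω, τ ω / (M' : ℤ))) + (Sf M p Z v u τ + 2 * d) -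
        n * Real.log 2) -
      k * ((1 - Ex q (fun x => (w x : ℝ)) / N) * (n * Real.log 2)) -
      (a - 1) * CH q (fun x => cap J (lev n N (w x)) (v (pr x)))
        (fun x => (w x, (Z (pr x), τ (pr x) / (M' : ℤ)))) + (a - 1) * Real.log (N + 1) +
      Λ * (Real.log M' - CH p τ (fun ω => (bv Z v ω, τ ω / (M' : ℤ)))) + B₀ +
      B₁ * Gf M' p (fun ω => (bv Z v ω, τ ω / (M' : ℤ))) (fun ω => τ ω % (M' : ℤ)) +
      ε * (n * Real.log 2) + d * (((J - n : ℕ) : ℝ) * Real.log 2) := by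
  have hp := hf.hp
  have hM0 : (0 : ℝ) < M := by exact_mod_cast hf.hM
  have hM'N : 0 < M' := by rw [hM']; positivity
  have hM'0 : (0 : ℝ) < M' := by exact_mod_cast hM'N
  have hM'Z : (0 : ℤ) < (M' : ℤ) := by exact_mod_cast hM'N
  obtain ⟨D, hD⟩ : ∃ D : ℤ, D = 2 ^ (J - n) := ⟨_, rfl⟩
  have hD0 : 0 < D := by rw [hD]; positivity
  have hDR : (0 : ℝ) < D := by exact_mod_cast hD0
  have hMD : (M : ℤ) = M' * D := by
    rw [hM, hM', hD]
    push_cast
    rw [← pow_add]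
    congr 1
    omega
  have hMDR : (M : ℝ) = M' * D := by exact_mod_cast hMD
  set Q : Ω → ℤ := fun ω => τ ω / (M' : ℤ) with hQ
  set τ' : Ω → ℤ := fun ω => τ ω % (M' : ℤ) with hτ'
  set v' : Ω → Fin d → ℤ := fun ω k => v ω k / D with hv'
  set u' : Ω → Fin d → ℝ := fun ω => pos M (u ω) (v ω) (M' * Q ω) with hu'
  set Z₀ : Ω → ζ × ℤ := fun ω => (Z ω, Q ω) with hZ₀
  have hvv' : ∀ ω ω', v ω = v ω' → v' ω = v' ω' := by
    intro ω ω' e1
    simp only [hv', e1]
  obtain ⟨Ω', inst, q, ζs, Zs, pr, hq, hMg, hdet, hind, hcond, hdbl⟩ :=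
    hSEC Ω p hp hf.h1 ((Fin d → ℤ) × (ζ × ℤ)) ((Fin d → ℤ) × (ζ × ℤ))
      (fun ω => (v' ω, Z₀ ω)) (fun ω => (v ω, Z₀ ω)) (by
        intro ω ω' _ _ e
        simp only [Prod.mk.injEq] at e ⊢
        exact ⟨hvv' ω ω' e.1, e.2⟩)
  have h1 : ∑ x, q x = 1 := by rw [hMg.sum, hf.h1]
  set Z' : Ω' → (ζ × ℤ) × ζs := fun x => (Z₀ (pr x), Zs x) with hZ'
  have hdet' : ∀ x y, 0 < q x → 0 < q y → v' (pr x) = v' (pr y) → Z' x = Z' y →
      v (pr x) = v (pr y) ∧ Z₀ (pr x) = Z₀ (pr y) := by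
    intro x y a b e1 e2
    simp only [hZ', Prod.mk.injEq] at e2
    have := hdet x y a b (by simp only [Prod.mk.injEq]; exact ⟨⟨e1, e2.1⟩, e2.2⟩)
    simpa only [Prod.mk.injEq] using this
  have hτQ : ∀ ω, τ ω = M' * Q ω + τ' ω := fun ω => (Int.mul_ediv_add_emod (τ ω) (M' : ℤ)).symm
  have hτ'0 : ∀ ω, 0 ≤ τ' ω := fun ω => Int.emod_nonneg _ hM'Z.ne'
  have hτ'1 : ∀ ω, τ' ω < M' := fun ω => Int.emod_lt_of_pos _ hM'Z
  -- the new family
  have hfam : IsFam M' q Z' (fun x => v' (pr x)) (fun x => u' (pr x)) (fun x => τ' (pr x)) :=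
    { hM := hM'N
      hp := hq
      h1 := h1
      hv := by
        intro x hx k
        have b := hf.hv (pr x) (hMg.pos hq hx) k
        rw [abs_le] at b ⊢
        simp only [hv']
        constructor
        · rw [Int.le_ediv_iff_mul_le hD0]
          have : (-(M' : ℤ)) * D = -(M : ℤ) := by rw [hMD]; ring
          rw [this]
          exact b.1
        · rw [← Int.lt_add_one_iff, Int.ediv_lt_iff_lt_mul hD0]
          have : ((M' : ℤ) + 1) * D = (M : ℤ) + D := by rw [hMD]; ring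
          rw [this]
          linarith [b.2]
      hu := by
        intro x y hx hy e
        simp only [Prod.mk.injEq] at e
        obtain ⟨e1, e2⟩ := hdet' x y hx hy e.1 e.2
        simp only [hZ₀, Prod.mk.injEq] at e2
        have e6 : u (pr x) = u (pr y) := hf.hu _ _ (hMg.pos hq hx) (hMg.pos hq hy)
          (by simp only [Prod.mk.injEq]; exact ⟨e1, e2.1⟩)
        simp only [hu']
        rw [e1, e6, e2.2]
      hτ := fun x _ => ⟨hτ'0 _, hτ'1 _⟩ }
  obtain ⟨w, hw, hak⟩ := h n Ω' _ q Z' (fun x => v' (pr x)) (fun x => u' (pr x))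
    (fun x => τ' (pr x)) (hM' ▸ hfam)
  rw [← hM'] at hak
  refine ⟨Ω', inst, q, pr, w, hq, hMg, hw, ?_⟩
  -- the entropy of the time
  have hT : CH q (fun x => τ' (pr x)) Z' ≤ CH p τ Z₀ := by
    have t1 : CH q (fun x => τ' (pr x)) Z' ≤ CH q (fun x => τ' (pr x)) (fun x => Z₀ (pr x)) := by
      refine CH_mono_cond hq ?_
      intro x y _ _ e
      simp only [hZ', Prod.mk.injEq] at e
      exact e.1
    have t2 : CH q (fun x => τ' (pr x)) (fun x => Z₀ (pr x)) = CH p τ' Z₀ := hMg.CH τ' Z₀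
    have t3 : CH p τ' Z₀ = CH p τ Z₀ := by
      refine CH_congr hp ?_ ?_ ?_ ?_
      · intro ω ω' _ _ e
        simp only [hZ₀, Prod.mk.injEq] at e
        rw [hτQ ω, hτQ ω', e.1, e.2.2]
      · intro ω ω' _ _ e
        simp only [Prod.mk.injEq] at e
        simp only [hτ']
        rw [e.1]
      · exact fun _ _ _ _ e => e
      · exact fun _ _ _ _ e => e
    linarith
  -- the slices
  have hS : Sf M' q Z' (fun x => v' (pr x)) (fun x => u' (pr x)) (fun x => τ' (pr x)) ≤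
      Sf M p Z v u τ + 2 * d := by
    unfold Sf
    have c1 := CH_le_add hq (fun x => rd (pos M' (u' (pr x)) (v' (pr x)) (τ' (pr x))))
      (fun x => rd (pos M (u (pr x)) (v (pr x)) (τ (pr x)))) (fun x => (Z' x, τ' (pr x)))
    have c2 : CH q (fun x => rd (pos M (u (pr x)) (v (pr x)) (τ (pr x))))
        (fun x => (Z' x, τ' (pr x))) ≤
        CH q (fun x => rd (pos M (u (pr x)) (v (pr x)) (τ (pr x))))
          (fun x => (Z (pr x), τ (pr x))) := by
      refine CH_mono_cond hq ?_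
      intro x y _ _ e
      simp only [hZ', hZ₀, Prod.mk.injEq] at e ⊢
      obtain ⟨⟨⟨e1, e2⟩, _⟩, e3⟩ := e
      exact ⟨e1, by rw [hτQ (pr x), hτQ (pr y), e2, e3]⟩
    have c2' : CH q (fun x => rd (pos M (u (pr x)) (v (pr x)) (τ (pr x))))
          (fun x => (Z (pr x), τ (pr x))) =
        CH p (fun ω => rd (pos M (u ω) (v ω) (τ ω))) (fun ω => (Z ω, τ ω)) :=
      hMg.CH (fun ω => rd (pos M (u ω) (v ω) (τ ω))) (fun ω => (Z ω, τ ω))
    have key : ∀ ω, ∀ k, pos M' (u' ω) (v' ω) (τ' ω) k ≤ pos M (u ω) (v ω) (τ ω) k ∧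
        pos M (u ω) (v ω) (τ ω) k < pos M' (u' ω) (v' ω) (τ' ω) k + 1 := by
      intro ω k
      have g1 : (0 : ℝ) ≤ τ' ω := by exact_mod_cast hτ'0 ω
      have g2 : (τ' ω : ℝ) ≤ M' := by exact_mod_cast (hτ'1 ω).le
      have g3 : (τ ω : ℝ) = M' * Q ω + τ' ω := by exact_mod_cast hτQ ω
      have g4 : pos M (u ω) (v ω) (τ ω) k - pos M' (u' ω) (v' ω) (τ' ω) k =
          (τ' ω : ℝ) / M' * ((v ω k : ℝ) / D - v' ω k) := by
        simp only [hu', pos]
        rw [g3, hMDR]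
        push_cast
        field_simp
        ring
      have i1 := Int.emod_add_mul_ediv (v ω k) D
      have i2 := Int.emod_nonneg (v ω k) hD0.ne'
      have i3 := Int.emod_lt_of_pos (v ω k) hD0
      have j1 : (v' ω k : ℝ) * D ≤ v ω k := by
        have : v' ω k * D ≤ v ω k := by simp only [hv']; linarith
        exact_mod_cast this
      have j2 : (v ω k : ℝ) < (v' ω k + 1) * D := by
        have : v ω k < (v' ω k + 1) * D := by simp only [hv']; linarith
        exact_mod_cast this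
      have g5 : (0 : ℝ) ≤ (v ω k : ℝ) / D - v' ω k := by
        rw [sub_nonneg, le_div_iff₀ hDR]
        exact j1
      have g6 : (v ω k : ℝ) / D - v' ω k < 1 := by
        rw [sub_lt_iff_lt_add, div_lt_iff₀ hDR]
        linarith
      have g7 : (τ' ω : ℝ) / M' ≤ 1 := (div_le_one hM'0).mpr g2
      have g8 : 0 ≤ (τ' ω : ℝ) / M' := by positivity
      constructor
      · have := mul_nonneg g8 g5
        linarith
      · have := mul_le_mul_of_nonneg_right g7 g5
        linarith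
    have key2 : ∀ ω, ∀ k, rd (pos M' (u' ω) (v' ω) (τ' ω)) k ≤ rd (pos M (u ω) (v ω) (τ ω)) k ∧
        rd (pos M (u ω) (v ω) (τ ω)) k ≤ rd (pos M' (u' ω) (v' ω) (τ' ω)) k + 1 := by
      intro ω k
      obtain ⟨k1, k2⟩ := key ω k
      refine ⟨Int.floor_le_floor k1, ?_⟩
      have := Int.floor_le_floor k2.le
      rwa [Int.floor_add_one] at this
    have c3 := CH_le_vec hq h1 (fun x => rd (pos M' (u' (pr x)) (v' (pr x)) (τ' (pr x))))
      (fun x => (rd (pos M (u (pr x)) (v (pr x)) (τ (pr x))), (Z' x, τ' (pr x)))) (fun _ => 1) (by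
        intro x y _ _ e k
        have e1 := congrFun (Prod.ext_iff.mp e).1 k
        simp only at e1
        obtain ⟨k1, k2⟩ := key2 (pr x) k
        obtain ⟨k3, k4⟩ := key2 (pr y) k
        have : |rd (pos M' (u' (pr x)) (v' (pr x)) (τ' (pr x))) k -
            rd (pos M' (u' (pr y)) (v' (pr y)) (τ' (pr y))) k| ≤ 1 := by
          rw [abs_le]
          constructor <;> omega
        exact_mod_cast this)
    rw [Ex_const h1] at c3
    have c4 : Real.log (2 * 1 + 1) ≤ 2 := by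
      have := Real.log_le_sub_one_of_pos (by norm_num : (0 : ℝ) < 2 * 1 + 1)
      linarith
    have c5 : (d : ℝ) * Real.log (2 * 1 + 1) ≤ d * 2 :=
      mul_le_mul_of_nonneg_left c4 (Nat.cast_nonneg d)
    linarith
  -- the times
  have hK : Kf M' q (bv Z' (fun x => v' (pr x))) (fun x => τ' (pr x)) ≤
      Real.log M' - CH p τ (fun ω => (bv Z v ω, Q ω)) := by
    unfold Kf
    have k1 := hcond ℤ τ'
    have k2 : CH q (fun x => τ' (pr x)) (fun x => ((v' (pr x), Z₀ (pr x)), Zs x)) =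
        CH q (fun x => τ' (pr x)) (bv Z' (fun x => v' (pr x))) := by
      refine CH_congr hq ?_ ?_ ?_ ?_ <;>
      · intro x y _ _ e
        simp only [bv, hZ', Prod.mk.injEq] at e ⊢
        tauto
    have k3 : CH p τ' (fun ω => (v ω, Z₀ ω)) = CH p τ (fun ω => (bv Z v ω, Q ω)) := by
      refine CH_congr hp ?_ ?_ ?_ ?_
      · intro ω ω' _ _ e
        simp only [hZ₀, Prod.mk.injEq] at e
        rw [hτQ ω, hτQ ω', e.1, e.2.2.2]
      · intro ω ω' _ _ e
        simp only [Prod.mk.injEq] at e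
        simp only [hτ']
        rw [e.1]
      · intro ω ω' _ _ e
        simp only [bv, hZ₀, Prod.mk.injEq] at e ⊢
        tauto
      · intro ω ω' _ _ e
        simp only [bv, hZ₀, Prod.mk.injEq] at e ⊢
        tauto
    linarith
  have hG : Gf M' q (bv Z' (fun x => v' (pr x))) (fun x => τ' (pr x)) =
      Gf M' p (fun ω => (bv Z v ω, Q ω)) τ' := by
    have k1 := hdbl (fun x y => ell M' (τ' x) (τ' y))
    have k2 : Gf M' q (bv Z' (fun x => v' (pr x))) (fun x => τ' (pr x)) =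
        Gf M' q (fun x => ((v' (pr x), Z₀ (pr x)), Zs x)) (fun x => τ' (pr x)) := by
      refine Gf_congr hq ?_ ?_ M' _ <;>
      · intro x y _ _ e
        simp only [bv, hZ', Prod.mk.injEq] at e ⊢
        tauto
    have k3 : Gf M' p (fun ω => (v ω, Z₀ ω)) τ' = Gf M' p (fun ω => (bv Z v ω, Q ω)) τ' := by
      refine Gf_congr hp ?_ ?_ M' _ <;>
      · intro x y _ _ e
        simp only [bv, hZ₀, Prod.mk.injEq] at e ⊢
        tauto
    rw [k2, ← k3]
    exact k1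
  rw [hG] at hak
  unfold Sb at hak
  -- the direction
  have hind' : CH q (fun x => (v' (pr x), Z₀ (pr x))) Zs =
      H q (fun x => (v' (pr x), Z₀ (pr x))) := by
    rw [hind]
    exact (hMg.H (fun ω => (v' ω, Z₀ ω))).symm
  have d0 : CH p v' Z₀ ≤ CH q (fun x => v' (pr x)) Z' := by
    rw [← hMg.CH v' Z₀]
    exact ind_left hq h1 (fun x => v' (pr x)) (fun x => Z₀ (pr x)) Zs hind'
  have d1 := CH_le_add hp v v' Z₀
  have d3 := CH_le_card hp hf.h1 v (fun ω => (v' ω, Z₀ ω))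
    (fun z => Fintype.piFinset fun k : Fin d => Finset.Ico (z.1 k * D) (z.1 k * D + D)) (by
      intro ω _
      rw [Fintype.mem_piFinset]
      intro k
      rw [Finset.mem_Ico]
      have i1 := Int.emod_add_mul_ediv (v ω k) D
      have i2 := Int.emod_nonneg (v ω k) hD0.ne'
      have i3 := Int.emod_lt_of_pos (v ω k) hD0
      simp only [hv']
      constructor <;> linarith)
  have d4 : ∀ ω, Real.log ((Fintype.piFinset fun k : Fin d =>
      Finset.Ico (v' ω k * D) (v' ω k * D + D)).card : ℝ) = d * (((J - n : ℕ) : ℝ) * Real.log 2) := by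
    intro ω
    rw [Fintype.card_piFinset]
    have : ∀ k : Fin d, (Finset.Ico (v' ω k * D) (v' ω k * D + D)).card = 2 ^ (J - n) := by
      intro k
      rw [Int.card_Ico, add_sub_cancel_left, hD]
      have : ((2 : ℤ) ^ (J - n)) = ((2 ^ (J - n) : ℕ) : ℤ) := by push_cast; rfl
      rw [this, Int.toNat_natCast]
    simp only [this, Finset.prod_const, Finset.card_univ, Fintype.card_fin]
    push_cast
    rw [Real.log_pow, Real.log_pow]
  simp only [d4] at d3
  rw [Ex_const hf.h1] at d3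
  -- the cap
  have hcap : ∀ x, cap n (lev n N (w x)) (v' (pr x)) = cap J (lev n N (w x)) (v (pr x)) := by
    intro x
    have := cap_cap hnJ (lev_le (n := n) hN (hw x)) (v (pr x))
    rw [← this]
    simp only [hv', hD]
  have d5 := cap_section hq h1 (fun x => v' (pr x)) (fun x => Z₀ (pr x)) Zs w
    (fun x => cap n (lev n N (w x)) (v' (pr x))) hw (by
      intro x y _ _ e
      simp only [Prod.mk.injEq] at e
      simp only [e.1, e.2]) hind'
  have d6 : CH q (fun x => cap n (lev n N (w x)) (v' (pr x))) (fun x => (w x, Z₀ (pr x))) =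
      CH q (fun x => cap J (lev n N (w x)) (v (pr x)))
        (fun x => (w x, (Z (pr x), τ (pr x) / (M' : ℤ)))) := by
    simp only [hcap]
    rfl
  have ha0 : 0 ≤ a := by linarith
  have e1 := mul_le_mul_of_nonneg_left (add_le_add hT hS) ha0
  have e2 := mul_le_mul_of_nonneg_left hK hΛ
  have e3 := mul_le_mul_of_nonneg_left d5 (show (0 : ℝ) ≤ a - 1 by linarith)
  rw [d6] at e3
  change CH p v Z₀ ≤ _
  have e4 : CH q (fun x => cap n (lev n N (w x)) (v' (pr x))) (fun x => (w x, Z' x)) =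
    CH q (fun x => cap n (lev n N (w x)) (v' (pr x)))
      (fun x => (w x, (Z₀ (pr x), Zs x))) := rfl
  rw [e4] at hak
  have e5 : CH p τ Z₀ = CH p τ (fun ω => (Z ω, τ ω / (M' : ℤ))) := rfl
  rw [e5] at e1
  linarith

theorem local_step (hSEC : SEC3Stmt) {d : ℕ} {a Λ k : ℝ} {N : ℕ} {B₀ B₁ ε : ℝ}
    (h : Pg d a Λ k N B₀ B₁ ε) (hN : 0 < N) (ha : 1 ≤ a) (hΛ : 0 ≤ Λ)
    {M J n : ℕ} (hnJ : n ≤ J) (hM : M = 2 ^ J) {Ω : Type} [Fintype Ω]
    {ζ : Type} {p : Ω → ℝ} {Z : Ω → ζ} {v : Ω → Fin d → ℤ} {u : Ω → Fin d → ℝ} {τ : Ω → ℤ}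
    (hf : IsFam M p Z v u τ) :
    ∃ (Ω' : Type) (_ : Fintype Ω') (q : Ω' → ℝ) (pr : Ω' → Ω) (w : Ω' → ℕ),
    (∀ x, 0 ≤ q x) ∧ Marg q p pr ∧ (∀ x, w x ≤ N) ∧
    CH p v (fun ω => (Z ω, τ ω / 2 ^ n)) ≤
      a * (CH p τ (fun ω => (Z ω, τ ω / 2 ^ n)) + (Sf M p Z v u τ + 2 * d) -
        n * Real.log 2) -
      k * ((1 - Ex q (fun x => (w x : ℝ)) / N) * (n * Real.log 2)) -
      (a - 1) * CH q (fun x => cap J (lev n N (w x)) (v (pr x)))
        (fun x => (w x, (Z (pr x), τ (pr x) / 2 ^ n))) + (a - 1) * Real.log (N + 1) +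
      Λ * (n * Real.log 2 - CH p τ (fun ω => (bv Z v ω, τ ω / 2 ^ n))) + B₀ +
      B₁ * Gf (2 ^ n) p (fun ω => (bv Z v ω, τ ω / 2 ^ n)) (fun ω => τ ω % 2 ^ n) +
      ε * (n * Real.log 2) + d * (((J - n : ℕ) : ℝ) * Real.log 2) := by
  have := local_step_aux hSEC h hN ha hΛ hnJ hM (M' := 2 ^ n) rfl hf
  push_cast at this
  rw [Real.log_pow] at this
  exact this

end Lpa99

end Pool.LQ
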